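import Mathlib

/-! Topology of the space of uniform ultrafilters. -/

namespace Pool.Agent.LibGP

open Cardinal Set Order Topology

universe u

variable {A : Type u}

/-- A set of full cardinality belongs to a uniform ultrafilter. -/
theorem exists_uniform (hA : ℵ₀ ≤ #A) (B : Set A) (hB : #B = #A) :
    ∃ q : Ultrafilter A, (∀ s ∈ q, #s = #A) ∧ B ∈ q := by
  classical
  let F₀ : Filter A :=
    { sets := {s | #(sᶜ : Set A) < #A}
      univ_sets := by
        show #((univ : Set A)ᶜ : Set A) < #A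
        rw [compl_univ, mk_eq_zero]
        exact aleph0_pos.trans_le hA
      sets_of_superset := by
        intro s t hs hst
        exact (mk_le_mk_of_subset (compl_subset_compl.2 hst)).trans_lt hs
      inter_sets := by
        intro s t hs ht
        show #((s ∩ t)ᶜ : Set A) < #A
        rw [compl_inter]
        exact (mk_union_le _ _).trans_lt (add_lt_of_lt hA hs ht) }
  have hmem : ∀ s : Set A, s ∈ F₀ ↔ #(sᶜ : Set A) < #A := fun s => Iff.rfl
  have hne : (F₀ ⊓ Filter.principal B).NeBot := by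
    rw [Filter.inf_principal_neBot_iff]
    intro s hs
    by_contra hcon
    rw [not_nonempty_iff_eq_empty] at hcon
    have h1 : B ⊆ sᶜ := by
      intro x hx hxs
      have : x ∈ s ∩ B := ⟨hxs, hx⟩
      rw [hcon] at this
      exact this
    have h2 := (mk_le_mk_of_subset h1).trans_lt ((hmem s).1 hs)
    rw [hB] at h2
    exact lt_irrefl _ h2
  refine ⟨Ultrafilter.of (F₀ ⊓ Filter.principal B), ?_, ?_⟩
  · intro s hs
    refine le_antisymm (mk_set_le _) ?_
    by_contra hcon
    rw [not_le] at hcon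
    have h1 : sᶜ ∈ F₀ := by
      rw [hmem, compl_compl]
      exact hcon
    have h2 : sᶜ ∈ Ultrafilter.of (F₀ ⊓ Filter.principal B) :=
      Ultrafilter.of_le _ (Filter.mem_inf_of_left h1)
    exact Ultrafilter.compl_mem_iff_notMem.1 h2 hs
  · exact Ultrafilter.of_le _ (Filter.mem_inf_of_right (Filter.mem_principal_self B))

/-- The points of `U(A)`. -/
abbrev UPt (A : Type u) : Type u := {u : Ultrafilter A // ∀ s ∈ u, #s = #A}

/-- The basic open sets of `U(A)`. -/
def bas (s : Set A) : Set (UPt A) := {q | s ∈ q.1}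

theorem isOpen_bas (s : Set A) : IsOpen (bas s) :=
  (ultrafilter_isOpen_basic s).preimage continuous_subtype_val

theorem exists_bas {p : UPt A} {W : Set (UPt A)} (hW : W ∈ 𝓝 p) :
    ∃ s : Set A, s ∈ p.1 ∧ bas s ⊆ W := by
  rw [nhds_subtype_eq_comap, Filter.mem_comap] at hW
  obtain ⟨t, ht, htW⟩ := hW
  obtain ⟨_, ⟨s, rfl⟩, hs1, hs2⟩ :=
    (ultrafilterBasis_is_basis.mem_nhds_iff).1 ht
  exact ⟨s, hs1, fun q hq => htW (hs2 hq)⟩

/-- The combinatorial criterion for a point of `U(A)` to lie on the boundary of many disjoint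
open sets. -/
theorem open_of_family (hA : ℵ₀ ≤ #A) (p : UPt A) {F : Type u} {K : Type u}
    (V : K → F × Bool → Set A)
    (hV : ∀ k k' x x', x ≠ x' → #(V k x ∩ V k' x' : Set A) < #A)
    (hp : ∀ s ∈ p.1, ∀ x, ∃ k, #(V k x ∩ s : Set A) = #A) :
    ∃ 𝒪 : Set (Set (UPt A)), #𝒪 = #F ∧ 𝒪.PairwiseDisjoint id ∧
      (∀ O ∈ 𝒪, IsOpen O ∧ p ∈ frontier O) := by
  classical
  let O : F × Bool → Set (UPt A) := fun x => ⋃ k, bas (V k x)
  have hOopen : ∀ x, IsOpen (O x) := fun x => isOpen_iUnion fun k => isOpen_bas _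
  have hOdisj : ∀ x x', x ≠ x' → Disjoint (O x) (O x') := by
    intro x x' hne
    rw [Set.disjoint_left]
    intro q hq hq'
    simp only [O, mem_iUnion] at hq hq'
    obtain ⟨k, hk⟩ := hq
    obtain ⟨k', hk'⟩ := hq'
    have h := q.2 _ (Filter.inter_mem hk hk')
    have h' := hV k k' x x' hne
    rw [h] at h'
    exact lt_irrefl _ h'
  have hOcl : ∀ x, p ∈ closure (O x) := by
    intro x
    rw [mem_closure_iff_nhds]
    intro W hW
    obtain ⟨s, hs, hsW⟩ := exists_bas hW
    obtain ⟨k, hk⟩ := hp s hs x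
    obtain ⟨q, hq, hqs⟩ := exists_uniform hA _ hk
    refine ⟨⟨q, hq⟩, hsW ?_, ?_⟩
    · exact Filter.mem_of_superset hqs inter_subset_right
    · exact mem_iUnion.2 ⟨k, Filter.mem_of_superset hqs inter_subset_left⟩
  have hne : ∀ x, (O x).Nonempty := fun x => closure_nonempty_iff.1 ⟨p, hOcl x⟩
  refine ⟨range fun a : F => O (a, false), ?_, ?_, ?_⟩
  · refine mk_range_eq _ ?_
    intro a b hab
    by_contra h
    have h1 := hOdisj (a, false) (b, false) (by simpa using h)
    have hab' : O (a, false) = O (b, false) := hab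
    rw [hab', disjoint_self] at h1
    exact (hne (b, false)).ne_empty h1
  · rintro _ ⟨a, rfl⟩ _ ⟨b, rfl⟩ hab
    refine hOdisj _ _ ?_
    intro h
    exact hab (congrArg O h)
  · rintro _ ⟨a, rfl⟩
    refine ⟨hOopen _, hOcl _, ?_⟩
    rw [(hOopen _).interior_eq]
    intro hpO
    have h1 : (O (a, false) ∩ O (a, true)).Nonempty :=
      mem_closure_iff.1 (hOcl (a, true)) _ (hOopen _) hpO
    exact h1.not_disjoint (hOdisj _ _ (by simp))

/-- A set of cardinality `#A` contains two disjoint subsets of cardinality `#A`. -/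
theorem exists_halves (hA : ℵ₀ ≤ #A) (s : Set A) (hs : #s = #A) :
    ∃ t : Bool → Set A, (∀ b, t b ⊆ s) ∧ (∀ b, #(t b) = #A) ∧ Disjoint (t false) (t true) := by
  have h1 : #(s × Bool) = #s := by
    rw [mk_prod, hs]
    have h2 : ((2 : ℕ) : Cardinal.{u}) ≤ #A := natCast_lt_aleph0.le.trans hA
    simpa using mul_eq_left hA h2 (by simp)
  obtain ⟨e⟩ := Cardinal.eq.1 h1
  refine ⟨fun b => (fun x : s => ((e (x, b) : s) : A)) '' univ, ?_, ?_, ?_⟩
  · rintro b _ ⟨x, _, rfl⟩
    exact (e (x, b)).2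
  · intro b
    rw [mk_image_eq, mk_univ, hs]
    intro x y hxy
    have := e.injective (Subtype.ext hxy)
    exact (Prod.ext_iff.1 this).1
  · rw [Set.disjoint_left]
    rintro _ ⟨x, _, rfl⟩ ⟨y, _, hxy⟩
    have := e.injective (Subtype.ext hxy)
    simp at this

/-- From an almost disjoint refinement of a base of `p` and an almost disjoint family to disjoint
open sets. -/
theorem open_of_refinement (hA : ℵ₀ ≤ #A) (p : UPt A) {K : Type u} (U B : K → Set A)
    (hBU : ∀ k, B k ⊆ U k) (hB : ∀ k, #(B k) = #A)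
    (hBB : ∀ i j, i ≠ j → #(B i ∩ B j : Set A) < #A)
    (hbase : ∀ s ∈ p.1, ∃ k, #(U k \ s : Set A) < #A)
    (F : Set (Set A)) (hF : ∀ s ∈ F, #s = #A)
    (hFF : F.Pairwise fun s t => #(s ∩ t : Set A) < #A) :
    ∃ 𝒪 : Set (Set (UPt A)), #𝒪 = #F ∧ 𝒪.PairwiseDisjoint id ∧
      (∀ O ∈ 𝒪, IsOpen O ∧ p ∈ frontier O) := by
  classical
  choose h hh1 hh2 hh3 using fun s : F => exists_halves hA s.1 (hF s.1 s.2)
  have e₀ : ∀ k, Nonempty (A ≃ B k) := fun k => Cardinal.eq.1 (hB k).symm
  let e : ∀ k, A ≃ B k := fun k => (e₀ k).some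
  let E : K → A → A := fun k a => (e k a : A)
  have hE : ∀ k, Function.Injective (E k) := fun k =>
    Subtype.val_injective.comp (e k).injective
  refine open_of_family hA p (F := F) (K := K) (fun k x => E k '' (h x.1 x.2)) ?_ ?_
  · intro k k' x x' hne
    by_cases hk : k = k'
    · subst hk
      rw [← image_inter (hE k), mk_image_eq (hE k)]
      by_cases hx : x.1 = x'.1
      · have hb : x.2 ≠ x'.2 := fun hb => hne (Prod.ext hx hb)
        have hd : (h x.1 x.2 ∩ h x'.1 x'.2 : Set A) = ∅ := by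
          rw [← hx, ← disjoint_iff_inter_eq_empty]
          rcases x.2.eq_false_or_eq_true with h1 | h1 <;>
            rcases x'.2.eq_false_or_eq_true with h2 | h2
          · exact absurd (h1.trans h2.symm) hb
          · rw [h1, h2]; exact (hh3 _).symm
          · rw [h1, h2]; exact hh3 _
          · exact absurd (h1.trans h2.symm) hb
        rw [hd, mk_eq_zero]
        exact aleph0_pos.trans_le hA
      · refine (mk_le_mk_of_subset (inter_subset_inter (hh1 _ _) (hh1 _ _))).trans_lt ?_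
        exact hFF x.1.2 x'.1.2 (fun h' => hx (Subtype.ext h'))
    · refine (mk_le_mk_of_subset (inter_subset_inter ?_ ?_)).trans_lt (hBB k k' hk)
      · rintro _ ⟨a, _, rfl⟩
        exact (e k a).2
      · rintro _ ⟨a, _, rfl⟩
        exact (e k' a).2
  · intro s hs x
    obtain ⟨k, hk⟩ := hbase s hs
    refine ⟨k, le_antisymm (mk_set_le _) ?_⟩
    by_contra hcon
    rw [not_le] at hcon
    have h1 : (E k '' (h x.1 x.2) : Set A) ⊆ (E k '' (h x.1 x.2) ∩ s) ∪ (U k \ s) := by
      intro y hy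
      by_cases hys : y ∈ s
      · exact Or.inl ⟨hy, hys⟩
      · right
        refine ⟨hBU k ?_, hys⟩
        obtain ⟨a, _, rfl⟩ := hy
        exact (e k a).2
    have h2 := ((mk_le_mk_of_subset h1).trans (mk_union_le _ _)).trans_lt
      (add_lt_of_lt hA hcon hk)
    rw [mk_image_eq (hE k), hh2] at h2
    exact lt_irrefl _ h2

end Pool.Agent.LibGP
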