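import Pool.Agent.LibGP.Step

/-! The dichotomy for a uniform ultrafilter on a set of singular cardinality. -/

namespace Pool.Agent.LibGP

open Cardinal Set Ordinal Order

universe u

variable {A : Type u}

/-- Either some function to `cof α` has fibres that are not thin on any member of `p`, or some
function to `(cof α)⁺` is unbounded modulo `p`. -/
theorem dichotomy (hA : ℵ₀ < #A) (hs : (#A).ord.cof < #A)
    {β δ : Ordinal.{u} → Cardinal.{u}}
    (hβm : Monotone β) (hδm : Monotone δ) (hδκ : ∀ ν, succ (#A).ord.cof ≤ δ ν)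
    (hδβ : ∀ ν, δ ν ≤ β ν) (hβ : ∀ ν < (#A).ord.cof.ord, β ν < #A)
    (hcof : ∀ θ < #A, ∃ ν < (#A).ord.cof.ord, θ ≤ δ ν)
    (hsup : ∀ ν, ν ≠ 0 → ∀ c < δ ν, ∃ μ < ν, c < β μ)
    (p : Ultrafilter A) (hp : ∀ s ∈ p, #s = #A) :
    (∃ g : A → Ordinal.{u}, ∀ U ∈ p, ∀ θ < #A, ∃ ν < (#A).ord.cof.ord, θ ≤ δ ν ∧
      δ ν < #(U ∩ {x | g x = ν} : Set A)) ∨
    (∃ f : A → Ordinal.{u}, (∀ x, f x < (succ (#A).ord.cof).ord) ∧
      ∀ i < (succ (#A).ord.cof).ord, {x | i ≤ f x} ∈ p) := by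
  classical
  rw [or_iff_not_imp_left]
  intro hno
  set κ := (#A).ord.cof with hκ
  have hκ0 : ℵ₀ ≤ κ := aleph0_le_cof hA
  have hδ0 : ∀ ν, ℵ₀ ≤ δ ν := fun ν => hκ0.trans ((le_succ _).trans (hδκ ν))
  have hβκ : ∀ ν, κ ≤ β ν := fun ν => ((le_succ _).trans (hδκ ν)).trans (hδβ ν)
  let Good : (A → Ordinal.{u}) → Prop := fun g =>
    (∀ x, g x < κ.ord) ∧ ∀ ν < κ.ord, #{x | g x ≤ ν} ≤ β ν
  have hstep : ∀ g : A → Ordinal.{u}, ∃ g' : A → Ordinal.{u}, Good g →
      ((∀ x, g' x ≤ g x) ∧ (∀ ν < κ.ord, #{x | g' x ≤ ν} ≤ β ν) ∧ {x | g' x < g x} ∈ p) := by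
    intro g
    by_cases hg : Good g
    · have hneg : ∃ U ∈ p, ∃ θ < #A, ∀ ν < κ.ord, θ ≤ δ ν →
          #(U ∩ {x | g x = ν} : Set A) ≤ δ ν := by
        by_contra hcon
        push Not at hcon
        exact hno ⟨g, hcon⟩
      obtain ⟨g', h1, h2, h3⟩ := step_exists hA hβm hδm hδκ hδβ hβ hcof hsup p hp g hg.1 hg.2 hneg
      exact ⟨g', fun _ => ⟨h1, h2, h3⟩⟩
    · exact ⟨g, fun h => absurd h hg⟩
  choose step hstep using hstep
  -- the starting function
  obtain ⟨ρ, hρ1, hρ2⟩ := exists_rank_set (univ : Set A) (δ := #A) (by simp)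
  let π : A → Ordinal.{u} := fun x => sInf {ν | ρ x < β ν}
  have hπex : ∀ x, ∃ ν < κ.ord, ρ x < β ν := by
    intro x
    obtain ⟨ν, hν, hν'⟩ := hcof _ (succ_lt_of_sing hA hs (hρ1 x (mem_univ x)))
    exact ⟨ν, hν, ((lt_succ _).trans_le hν').trans_le (hδβ ν)⟩
  have hπlt : ∀ x, π x < κ.ord := by
    intro x
    obtain ⟨ν, hν, hν'⟩ := hπex x
    exact lt_of_le_of_lt (csInf_le' hν') hν
  have hπmem : ∀ x, ρ x < β (π x) := by
    intro x
    obtain ⟨ν, hν, hν'⟩ := hπex x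
    exact csInf_mem (s := {ν | ρ x < β ν}) ⟨ν, hν'⟩
  have hπb : ∀ ν, #{x | π x ≤ ν} ≤ β ν := by
    intro ν
    refine (mk_le_mk_of_subset ?_).trans (hρ2 (β ν))
    intro x hx
    exact ⟨mem_univ x, (hπmem x).trans_le (hβm hx)⟩
  -- the recursion
  have wf : WellFounded (α := Ordinal.{u}) (· < ·) := wellFounded_lt
  let G : ∀ i : Ordinal.{u}, (∀ j, j < i → A → Ordinal.{u}) → A → Ordinal.{u} := fun i f x =>
    sInf (insert (π x) {y | ∃ (j : Ordinal.{u}) (hj : j < i), y = step (f j hj) x})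
  let gs : Ordinal.{u} → A → Ordinal.{u} := wf.fix G
  have hgs : ∀ i x, gs i x = sInf (insert (π x)
      {y | ∃ (j : Ordinal.{u}) (_ : j < i), y = step (gs j) x}) := by
    intro i x
    exact congrFun (wf.fix_eq G i) x
  have hgsπ : ∀ i x, gs i x ≤ π x := by
    intro i x
    rw [hgs]
    exact csInf_le' (mem_insert _ _)
  have hgsstep : ∀ i j x, j < i → gs i x ≤ step (gs j) x := by
    intro i j x hj
    rw [hgs]
    exact csInf_le' (mem_insert_of_mem _ ⟨j, hj, rfl⟩)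
  have hgslt : ∀ i x, gs i x < κ.ord := fun i x => (hgsπ i x).trans_lt (hπlt x)
  have hgscases : ∀ i x ν, gs i x ≤ ν → π x ≤ ν ∨ ∃ j < i, step (gs j) x ≤ ν := by
    intro i x ν h
    have hmem := csInf_mem (s := insert (π x)
      {y | ∃ (j : Ordinal.{u}) (_ : j < i), y = step (gs j) x}) ⟨π x, mem_insert _ _⟩
    rw [← hgs] at hmem
    rcases hmem with h' | ⟨j, hj, h'⟩
    · left
      rw [← h']
      exact h
    · right
      exact ⟨j, hj, by rw [← h']; exact h⟩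
  have hgood : ∀ i, i < (succ κ).ord → Good (gs i) := by
    intro i
    induction i using WellFoundedLT.induction with
    | ind i ih =>
      intro hi
      refine ⟨hgslt i, fun ν hν => ?_⟩
      have hβ0 : ℵ₀ ≤ β ν := hκ0.trans (hβκ ν)
      have hsub : {x | gs i x ≤ ν} ⊆ {x | π x ≤ ν} ∪ ⋃ j < i, {x | step (gs j) x ≤ ν} := by
        intro x hx
        rcases hgscases i x ν hx with h | ⟨j, hj, h⟩
        · exact Or.inl h
        · right
          simp only [mem_iUnion]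
          exact ⟨j, hj, h⟩
      refine (mk_le_mk_of_subset hsub).trans ((mk_union_le _ _).trans ?_)
      refine (add_le_add (hπb ν) (mk_biUnion_le_of_le (c := β ν) ?_ hβ0 _ ?_)).trans
        (add_eq_self hβ0).le
      · exact (lt_succ_iff.1 (lt_ord.1 hi)).trans (hβκ ν)
      · intro j hj
        exact (hstep (gs j) (ih j hj (hj.trans hi))).2.1 ν hν
  have hLlim : IsSuccLimit (succ κ).ord := isSuccLimit_ord (hκ0.trans (le_succ _))
  have hL0 : (0 : Ordinal.{u}) < (succ κ).ord := hLlim.pos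
  let S : A → Set Ordinal.{u} := fun x => {i | i < (succ κ).ord ∧ ∀ j < (succ κ).ord,
    gs i x ≤ gs j x}
  have hSne : ∀ x, (S x).Nonempty := by
    intro x
    have hne : {y | ∃ j < (succ κ).ord, y = gs j x}.Nonempty := ⟨gs 0 x, 0, hL0, rfl⟩
    obtain ⟨j, hj, h⟩ := csInf_mem hne
    refine ⟨j, hj, fun k hk => ?_⟩
    rw [← h]
    exact csInf_le' ⟨k, hk, rfl⟩
  refine ⟨fun x => sInf (S x), fun x => (csInf_mem (hSne x)).1, fun i hi => ?_⟩
  refine Filter.mem_of_superset (hstep (gs i) (hgood i hi)).2.2 ?_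
  intro x hx
  show i ≤ sInf (S x)
  by_contra hcon
  rw [not_le] at hcon
  have hfm := csInf_mem (hSne x)
  have hx' : step (gs i) x < gs i x := hx
  have h1 := hgsstep (succ i) i x (lt_succ i)
  have h2 := hgsstep i _ x hcon
  have h3 := (hstep (gs (sInf (S x))) (hgood _ hfm.1)).1 x
  have h4 := hfm.2 (succ i) (hLlim.succ_lt hi)
  exact absurd (((h1.trans_lt hx').trans_le h2).trans_le h3) (not_lt.2 h4)

end Pool.Agent.LibGP
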