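import Pool.Agent.LibGP.Tower
import Pool.Agent.LibGP.Dich

/-! Almost disjoint refinements of `α⁺` members of a uniform ultrafilter on a singular cardinal. -/

namespace Pool.Agent.LibGP

open Cardinal Set Ordinal Order

universe u

variable {A : Type u}

theorem tower_refine (hA : ℵ₀ < #A)
    {β δ : Ordinal.{u} → Cardinal.{u}} (hδm : Monotone δ)
    (hδκ : ∀ ν, succ (#A).ord.cof ≤ δ ν)
    (hδβ : ∀ ν, δ ν ≤ β ν) (hβ : ∀ ν < (#A).ord.cof.ord, β ν < #A)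
    (hcof : ∀ θ < #A, ∃ ν < (#A).ord.cof.ord, θ ≤ δ ν)
    (hlim : ∀ c < #A, succ c < #A) (hs : (#A).ord.cof < #A)
    (p : Ultrafilter A) (hp : ∀ s ∈ p, #s = #A)
    (f : A → Ordinal.{u}) (hf : ∀ x, f x < (succ (#A).ord.cof).ord)
    (hfp : ∀ i < (succ (#A).ord.cof).ord, {x | i ≤ f x} ∈ p)
    {I : Type u} (hI : #I ≤ succ #A) (U : I → Set A) (hU : ∀ i, U i ∈ p) :
    ∃ B : I → Set A, (∀ i, B i ⊆ U i) ∧ (∀ i, #(B i) = #A) ∧
      ∀ i j, i ≠ j → #(B i ∩ B j : Set A) < #A := by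
  classical
  choose σ hσE hσ using fun i =>
    exists_level hA hδκ hδβ hβ hcof hlim p hp f hf hfp (U i) (hU i)
  set κ := (#A).ord.cof with hκ
  have hκ0 : ℵ₀ ≤ κ := aleph0_le_cof hA
  have hκlim : IsSuccLimit κ.ord := isSuccLimit_ord hκ0
  have hδ0 : ∀ ν, ℵ₀ ≤ δ ν := fun ν => hκ0.trans ((le_succ _).trans (hδκ ν))
  have hE : ∀ s : Ordinal.{u}, ∃ e : Ordinal.{u} → Ordinal.{u}, (∃ i, σ i = s) →
      ((∀ μ ν, μ < ν → ν < κ.ord → e μ < e ν) ∧ (∀ ν < κ.ord, e ν < s) ∧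
      (∀ i < s, ∃ ν < κ.ord, i ≤ e ν)) := by
    intro s
    by_cases h : ∃ i, σ i = s
    · obtain ⟨i, rfl⟩ := h
      obtain ⟨e, he⟩ := hσE i
      exact ⟨e, fun _ => he⟩
    · exact ⟨fun _ => 0, fun h' => absurd h' h⟩
  choose E hE using hE
  let D : Ordinal.{u} → Ordinal.{u} → Set A := fun s ν =>
    {x | f x < E s ν ∧ ∀ μ < ν, E s μ ≤ f x}
  have hDdisj : ∀ s, ∀ μ ν, μ < ν → Disjoint (D s ν) (D s μ) := by
    intro s μ ν hμν
    rw [Set.disjoint_left]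
    rintro x ⟨_, hx1⟩ ⟨hx2, _⟩
    exact absurd hx2 (not_lt.2 (hx1 μ hμν))
  have hthin : ∀ s : Ordinal.{u}, ∃ B : {i // σ i = s} → Set A, (∀ i, B i ⊆ U i.1) ∧
      (∀ i, B i ⊆ ⋃ ν < κ.ord, D s ν) ∧
      (∀ i, ∀ ν < κ.ord, #(B i ∩ D s ν : Set A) ≤ δ ν) ∧ (∀ i, #(B i) = #A) ∧
      ∀ i j, i ≠ j → #(B i ∩ B j : Set A) < #A := by
    intro s
    refine thin_refine hA hlim ((mk_subtype_le _).trans hI) κ.ord (by rwa [card_ord]) δ
      (fun ν _ => hδ0 ν) (D s) ?_ (fun i => U i.1) ?_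
    · intro ν _ μ _ hne
      rcases lt_or_gt_of_ne hne with h | h
      · exact (hDdisj s ν μ h).symm
      · exact hDdisj s μ ν h
    · rintro ⟨i, hi⟩ θ hθ
      obtain ⟨he1, he2, he3⟩ := hE s ⟨i, hi⟩
      subst hi
      obtain ⟨ν₀, hν₀, hν₀'⟩ := hcof θ hθ
      obtain ⟨j, hj, hbig⟩ := hσ i (E (σ i) ν₀) (he2 ν₀ hν₀)
      obtain ⟨ν₁, hν₁, hjν₁⟩ := he3 j hj
      by_contra hcon
      push Not at hcon
      have hcover : (U i ∩ {x | E (σ i) ν₀ ≤ f x ∧ f x < j} : Set A) ⊆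
          ⋃ ν < succ ν₁, (if ν₀ < ν then U i ∩ D (σ i) ν else ∅) := by
        rintro x ⟨hxU, hx1, hx2⟩
        have hne : {ν | f x < E (σ i) ν}.Nonempty := ⟨ν₁, hx2.trans_le hjν₁⟩
        have hmem : f x < E (σ i) (sInf {ν | f x < E (σ i) ν}) := csInf_mem hne
        have hle : sInf {ν | f x < E (σ i) ν} ≤ ν₁ := csInf_le' (hx2.trans_le hjν₁)
        have hgt : ν₀ < sInf {ν | f x < E (σ i) ν} := by
          by_contra h
          rw [not_lt] at h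
          rcases h.lt_or_eq with h' | h'
          · exact absurd (hmem.trans ((he1 _ _ h' hν₀).trans_le hx1)) (lt_irrefl _)
          · rw [h'] at hmem
            exact absurd hmem (not_lt.2 hx1)
        simp only [mem_iUnion]
        refine ⟨_, lt_succ_iff.2 hle, ?_⟩
        rw [if_pos hgt]
        refine ⟨hxU, hmem, fun μ hμ => ?_⟩
        by_contra h
        rw [not_le] at h
        exact absurd hμ (not_lt.2 (csInf_le' h))
      have hsmall : #(⋃ ν < succ ν₁, (if ν₀ < ν then U i ∩ D (σ i) ν else ∅) : Set A) < #A := by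
        refine small_biUnion hA (by
          rw [← hκ]
          exact lt_ord.1 (hκlim.succ_lt hν₁)) _ ?_
        intro ν hν
        have hν' : ν < κ.ord := (lt_succ_iff.1 hν).trans_lt hν₁
        split_ifs with h
        · exact ((hcon ν hν' (hν₀'.trans (hδm h.le))).trans (hδβ ν)).trans_lt (hβ ν hν')
        · rw [mk_eq_zero]
          exact aleph0_pos.trans hA
      have := (mk_le_mk_of_subset hcover).trans_lt hsmall
      rw [hbig] at this
      exact lt_irrefl _ this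
  choose B hB1 hB2 hB3 hB4 hB5 using hthin
  have hBB : ∀ i s (h : σ i = s), B (σ i) ⟨i, rfl⟩ = B s ⟨i, h⟩ := by
    intro i s h
    subst h
    rfl
  have key : ∀ i j, σ i < σ j → #(B (σ i) ⟨i, rfl⟩ ∩ B (σ j) ⟨j, rfl⟩ : Set A) < #A := by
    intro i j hij
    obtain ⟨_, hi2, _⟩ := hE (σ i) ⟨i, rfl⟩
    obtain ⟨_, _, hj3⟩ := hE (σ j) ⟨j, rfl⟩
    obtain ⟨ν₁, hν₁, hν₁'⟩ := hj3 (σ i) hij
    have hsub : (B (σ i) ⟨i, rfl⟩ ∩ B (σ j) ⟨j, rfl⟩ : Set A) ⊆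
        ⋃ ν < succ ν₁, (B (σ j) ⟨j, rfl⟩ ∩ D (σ j) ν) := by
      rintro x ⟨hxi, hxj⟩
      have h1 := hB2 _ _ hxi
      have h2 := hB2 _ _ hxj
      simp only [mem_iUnion] at h1 h2 ⊢
      obtain ⟨ν, hν, hxν⟩ := h1
      obtain ⟨μ, hμ, hxμ⟩ := h2
      refine ⟨μ, ?_, hxj, hxμ⟩
      rw [lt_succ_iff]
      by_contra h
      rw [not_le] at h
      exact absurd ((hxν.1.trans (hi2 ν hν)).trans_le hν₁') (not_lt.2 (hxμ.2 ν₁ h))
    refine (mk_le_mk_of_subset hsub).trans_lt (small_biUnion hA (by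
      rw [← hκ]
      exact lt_ord.1 (hκlim.succ_lt hν₁)) _ ?_)
    intro ν hν
    have hν' : ν < κ.ord := (lt_succ_iff.1 hν).trans_lt hν₁
    exact ((hB3 _ _ ν hν').trans (hδβ ν)).trans_lt (hβ ν hν')
  refine ⟨fun i => B (σ i) ⟨i, rfl⟩, fun i => hB1 _ _, fun i => hB4 _ _, ?_⟩
  intro i j hij
  rcases lt_trichotomy (σ i) (σ j) with h | h | h
  · exact key i j h
  · show #(B (σ i) ⟨i, rfl⟩ ∩ B (σ j) ⟨j, rfl⟩ : Set A) < #A
    rw [hBB j (σ i) h.symm]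
    exact hB5 (σ i) _ _ (fun h' => hij (congrArg Subtype.val h'))
  · rw [inter_comm]
    exact key j i h

/-- Every family of at most `α⁺` members of a uniform ultrafilter on a set of singular cardinality
`α` has an almost disjoint refinement. -/
theorem adr (hA : ℵ₀ < #A) (hs : (#A).ord.cof < #A)
    (p : Ultrafilter A) (hp : ∀ s ∈ p, #s = #A)
    {I : Type u} (hI : #I ≤ succ #A) (U : I → Set A) (hU : ∀ i, U i ∈ p) :
    ∃ B : I → Set A, (∀ i, B i ⊆ U i) ∧ (∀ i, #(B i) = #A) ∧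
      ∀ i j, i ≠ j → #(B i ∩ B j : Set A) < #A := by
  have hlim : ∀ c < #A, succ c < #A := fun c hc => succ_lt_of_sing hA hs hc
  obtain ⟨β, δ, hβm, hδm, hδκ, hδβ, hβ, hcof, hsup⟩ := exists_scale hA hs
  rcases dichotomy hA hs hβm hδm hδκ hδβ hβ hcof hsup p hp with ⟨g, hg⟩ | ⟨f, hf, hfp⟩
  · have hκ0 : ℵ₀ ≤ (#A).ord.cof := aleph0_le_cof hA
    obtain ⟨B, h1, _, _, h4, h5⟩ := thin_refine hA hlim hI (#A).ord.cof.ord
      (by rwa [card_ord]) δ (fun ν _ => hκ0.trans ((le_succ _).trans (hδκ ν)))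
      (fun ν => {x | g x = ν}) (by
        intro ν _ μ _ hne
        rw [Set.disjoint_left]
        intro x hx hx'
        exact hne (hx.symm.trans hx')) U (fun i => hg (U i) (hU i))
    exact ⟨B, h1, h4, h5⟩
  · exact tower_refine hA hδm hδκ hδβ hβ hcof hlim hs p hp f hf hfp hI U hU

end Pool.Agent.LibGP
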