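import Mathlib

/-! Cardinal arithmetic used for the points of `U(α)`, `α` singular. -/

namespace Pool.Agent.LibGP

open Cardinal Set Ordinal Order

universe u

/-- A type of cardinality at most `δ` has a function to the cardinals below `δ` such that at most
`c` points have value below `c`. -/
theorem exists_rank {S : Type u} {δ : Cardinal.{u}} (h : #S ≤ δ) :
    ∃ ρ : S → Cardinal.{u}, (∀ x, ρ x < δ) ∧ ∀ c : Cardinal.{u}, #{x | ρ x < c} ≤ c := by
  rw [← mk_ord_toType δ] at h
  obtain ⟨e⟩ := h
  let t : S → Ordinal.{u} := fun x => typein (α := δ.ord.ToType) (· < ·) (e x)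
  have ht : Function.Injective t := fun x y hxy =>
    e.injective (typein_injective (α := δ.ord.ToType) (· < ·) hxy)
  refine ⟨fun x => (t x).card, fun x => ?_, fun c => ?_⟩
  · rw [← lt_ord]
    have := typein_lt_type (α := δ.ord.ToType) (· < ·) (e x)
    simpa [t] using this
  · have hinj : Function.Injective
        (fun x : {x : S // (t x).card < c} => (⟨t x.1, lt_ord.2 x.2⟩ : Set.Iio c.ord)) := by
      intro x y hxy
      exact Subtype.ext (ht (congrArg Subtype.val hxy))
    have h1 := lift_mk_le_lift_mk_of_injective hinj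
    rw [Cardinal.mk_Iio_ordinal] at h1
    have h2 : #{x : S // (t x).card < c} ≤ c := by simpa using h1
    exact h2

/-- `exists_rank` for a subset. -/
theorem exists_rank_set {A : Type u} (S : Set A) {δ : Cardinal.{u}} (h : #S ≤ δ) :
    ∃ ρ : A → Cardinal.{u}, (∀ x ∈ S, ρ x < δ) ∧
      ∀ c : Cardinal.{u}, #{x | x ∈ S ∧ ρ x < c} ≤ c := by
  classical
  obtain ⟨ρ, h1, h2⟩ := exists_rank h
  refine ⟨fun x => if hx : x ∈ S then ρ ⟨x, hx⟩ else 0, fun x hx => by simp [hx, h1], ?_⟩
  intro c
  refine le_trans ?_ (h2 c)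
  refine mk_le_of_injective
    (f := fun x : {x | x ∈ S ∧ (if hx : x ∈ S then ρ ⟨x, hx⟩ else 0) < c} =>
      (⟨⟨x.1, x.2.1⟩, by have := x.2.2; simpa [x.2.1] using this⟩ : {x : S | ρ x < c})) ?_
  intro x y hxy
  have := congrArg (fun z : {x : S | ρ x < c} => (z.1.1 : A)) hxy
  exact Subtype.ext this

/-- A union of fewer than `cof α` sets of cardinality below `α` has cardinality below `α`. -/
theorem small_biUnion {A : Type u} {α : Cardinal.{u}} (hα : ℵ₀ < α) {o : Ordinal.{u}}
    (ho : o.card < α.ord.cof) (S : Ordinal.{u} → Set A) (hS : ∀ ν < o, #(S ν) < α) :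
    #(⋃ ν < o, S ν : Set A) < α := by
  have hocard : o.card < α := ho.trans_le (cof_ord_le α)
  have hsup : (⨆ i : o.ToType, #(S i.toOrd)) < α := by
    apply iSup_lt_of_lt_cof_ord
    · simpa using ho
    · intro i
      exact hS _ i.toOrd.2
  set c := max (max ℵ₀ o.card) (⨆ i : o.ToType, #(S i.toOrd)) with hc
  have hcα : c < α := max_lt (max_lt hα hocard) hsup
  refine lt_of_le_of_lt (mk_biUnion_le_of_le (c := c) ?_ ?_ S ?_) hcα
  · exact (le_max_right _ _).trans (le_max_left _ _)
  · exact (le_max_left _ _).trans (le_max_left _ _)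
  · intro j hj
    have := le_ciSup (f := fun i : o.ToType => #(S i.toOrd)) bddAbove_of_small
      (ToType.mk ⟨j, hj⟩)
    simp only [ToType.toOrd, ToType.mk, OrderIso.symm_apply_apply] at this
    exact this.trans (le_max_right _ _)

/-- A singular cardinal is a limit cardinal. -/
theorem succ_lt_of_sing {α : Cardinal.{u}} (hα : ℵ₀ < α) (hs : α.ord.cof < α)
    {c : Cardinal.{u}} (hc : c < α) : succ c < α := by
  rcases lt_or_ge c ℵ₀ with h | h
  · exact lt_of_le_of_lt (succ_le_of_lt h) hα
  · refine lt_of_le_of_ne (succ_le_of_lt hc) ?_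
    intro h'
    have hreg := isRegular_succ h
    rw [h'] at hreg
    exact absurd hreg.cof_ord hs.ne

end Pool.Agent.LibGP
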