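import Mathlib

set_option autoImplicit false

namespace Pool.Agent.LibGP

open Filter Topology

/-- Number of elements of `X` in `[1, N]`. -/
noncomputable def cnt (X : Set ℕ) (N : ℕ) : ℕ := (X ∩ Set.Icc 1 N).ncard

/-- `X` has natural density `d`. -/
def HasDens (X : Set ℕ) (d : ℝ) : Prop :=
  Tendsto (fun N : ℕ => (cnt X N : ℝ) / (N : ℝ)) atTop (nhds d)

theorem fin_inter (X : Set ℕ) (N : ℕ) : (X ∩ Set.Icc 1 N).Finite :=
  (Set.finite_Icc 1 N).subset Set.inter_subset_right

theorem cnt_mono {X Y : Set ℕ} (h : ∀ n, 1 ≤ n → n ∈ X → n ∈ Y) (N : ℕ) : cnt X N ≤ cnt Y N := by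
  apply Set.ncard_le_ncard _ (fin_inter Y N)
  rintro n ⟨h1, h2⟩
  exact ⟨h n h2.1 h1, h2⟩

theorem cnt_congr {X Y : Set ℕ} (h : ∀ n, 1 ≤ n → (n ∈ X ↔ n ∈ Y)) (N : ℕ) :
    cnt X N = cnt Y N :=
  le_antisymm (cnt_mono (fun n hn => (h n hn).1) N) (cnt_mono (fun n hn => (h n hn).2) N)

theorem cnt_le (X : Set ℕ) (N : ℕ) : cnt X N ≤ N := by
  have h : cnt X N ≤ (Set.Icc 1 N).ncard :=
    Set.ncard_le_ncard Set.inter_subset_right (Set.finite_Icc 1 N)
  rw [Set.ncard_eq_toFinset_card'] at h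
  simpa using h

theorem cnt_union_le (X Y : Set ℕ) (N : ℕ) : cnt (X ∪ Y) N ≤ cnt X N + cnt Y N := by
  unfold cnt
  rw [Set.union_inter_distrib_right]
  exact Set.ncard_union_le _ _

theorem cnt_union {X Y : Set ℕ} (h : ∀ n, 1 ≤ n → n ∈ X → n ∉ Y) (N : ℕ) :
    cnt (X ∪ Y) N = cnt X N + cnt Y N := by
  unfold cnt
  rw [Set.union_inter_distrib_right]
  apply Set.ncard_union_eq _ (fin_inter X N) (fin_inter Y N)
  rw [Set.disjoint_left]
  rintro n ⟨h1, h2⟩ ⟨h3, -⟩
  exact h n h2.1 h1 h3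

theorem cnt_biUnion_le {ι : Type*} (s : Finset ι) (X : ι → Set ℕ) (N : ℕ) :
    cnt (⋃ i ∈ s, X i) N ≤ ∑ i ∈ s, cnt (X i) N := by
  classical
  induction s using Finset.induction_on with
  | empty => simp [cnt]
  | insert a s ha ih =>
    rw [Finset.set_biUnion_insert, Finset.sum_insert ha]
    exact (cnt_union_le _ _ N).trans (by omega)

/-- The multiples of `k` in `[1, N]`. -/
theorem cnt_multiples (k : ℕ) (N : ℕ) : cnt {n | k ∣ n} N = N / k := by
  rcases Nat.eq_zero_or_pos k with hk | hk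
  · subst hk
    have : cnt {n | 0 ∣ n} N = cnt ∅ N := by
      apply cnt_congr
      intro n hn
      simp
      omega
    rw [this]
    simp [cnt]
  · unfold cnt
    have h1 : ({n | k ∣ n} ∩ Set.Icc 1 N) = ((Finset.Ioc 0 N).filter (fun x => k ∣ x) : Finset ℕ) := by
      ext n
      simp
      omega
    rw [h1, Set.ncard_coe_finset, Nat.Ioc_filter_dvd_card_eq_div]

theorem HasDens.congr {X Y : Set ℕ} {d : ℝ} (hX : HasDens X d)
    (h : ∀ n, 1 ≤ n → (n ∈ X ↔ n ∈ Y)) : HasDens Y d := by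
  unfold HasDens at *
  refine hX.congr (fun N => ?_)
  rw [cnt_congr h N]

theorem HasDens.union {X Y : Set ℕ} {d e : ℝ} (hX : HasDens X d) (hY : HasDens Y e)
    (h : ∀ n, 1 ≤ n → n ∈ X → n ∉ Y) : HasDens (X ∪ Y) (d + e) := by
  unfold HasDens at *
  refine (hX.add hY).congr (fun N => ?_)
  rw [cnt_union h N]
  push_cast
  ring

theorem HasDens.sdiff {X Y : Set ℕ} {d e : ℝ} (hX : HasDens X d) (hY : HasDens Y e)
    (h : ∀ n, 1 ≤ n → n ∈ Y → n ∈ X) : HasDens (X \ Y) (d - e) := by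
  unfold HasDens at *
  refine (hX.sub hY).congr (fun N => ?_)
  have h1 : cnt X N = cnt (X \ Y) N + cnt Y N := by
    rw [← cnt_union (fun n _ h1 => h1.2) N]
    apply cnt_congr
    intro n hn
    constructor
    · intro hx
      by_cases hy : n ∈ Y
      · exact Or.inr hy
      · exact Or.inl ⟨hx, hy⟩
    · rintro (h2 | h2)
      · exact h2.1
      · exact h n hn h2
  rw [h1]
  push_cast
  ring

theorem HasDens.biUnion {ι : Type*} (s : Finset ι) (X : ι → Set ℕ) (d : ι → ℝ)
    (hX : ∀ i ∈ s, HasDens (X i) (d i))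
    (hdisj : ∀ i ∈ s, ∀ j ∈ s, i ≠ j → ∀ n, 1 ≤ n → n ∈ X i → n ∉ X j) :
    HasDens (⋃ i ∈ s, X i) (∑ i ∈ s, d i) := by
  classical
  induction s using Finset.induction_on with
  | empty =>
    simp only [Finset.notMem_empty, Set.iUnion_of_empty, Set.iUnion_empty, Finset.sum_empty]
    unfold HasDens
    simp [cnt]
  | insert a s ha ih =>
    rw [Finset.set_biUnion_insert, Finset.sum_insert ha]
    apply HasDens.union (hX a (Finset.mem_insert_self a s))
    · apply ih
      · intro i hi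
        exact hX i (Finset.mem_insert_of_mem hi)
      · intro i hi j hj
        exact hdisj i (Finset.mem_insert_of_mem hi) j (Finset.mem_insert_of_mem hj)
    · intro n hn h1 h2
      simp only [Set.mem_iUnion] at h2
      obtain ⟨i, hi, h3⟩ := h2
      have hne : a ≠ i := fun h => ha (h ▸ hi)
      exact hdisj a (Finset.mem_insert_self a s) i (Finset.mem_insert_of_mem hi) hne n hn h1 h3

/-- Dilating by `t ≥ 1` divides the density by `t`. -/
theorem cnt_dilate (X : Set ℕ) {t : ℕ} (ht : 1 ≤ t) (N : ℕ) :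
    cnt {n | ∃ m ∈ X, n = t * m} N = cnt X (N / t) := by
  unfold cnt
  have h : ({n | ∃ m ∈ X, n = t * m} ∩ Set.Icc 1 N) =
      (fun m => t * m) '' (X ∩ Set.Icc 1 (N / t)) := by
    ext n
    simp only [Set.mem_inter_iff, Set.mem_ofPred_eq, Set.mem_Icc, Set.mem_image]
    constructor
    · rintro ⟨⟨m, hm, rfl⟩, h1, h2⟩
      refine ⟨m, ⟨hm, ?_, ?_⟩, rfl⟩
      · exact Nat.pos_of_ne_zero (fun h => by subst h; simp at h1)
      · rw [Nat.le_div_iff_mul_le (by omega)]
        rw [mul_comm]; exact h2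
    · rintro ⟨m, ⟨hm, h1, h2⟩, rfl⟩
      refine ⟨⟨m, hm, rfl⟩, ?_, ?_⟩
      · exact Nat.mul_pos (by omega) (by omega)
      · rw [Nat.le_div_iff_mul_le (by omega)] at h2
        rw [mul_comm]; exact h2
  rw [h, Set.ncard_image_of_injective]
  intro a b hab
  exact Nat.eq_of_mul_eq_mul_left (by omega) hab

theorem HasDens.dilate {X : Set ℕ} {d : ℝ} (hX : HasDens X d) {t : ℕ} (ht : 1 ≤ t) :
    HasDens {n | ∃ m ∈ X, n = t * m} (d / t) := by
  unfold HasDens at *
  have htr : (0 : ℝ) < t := by exact_mod_cast ht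
  have h1 : Tendsto (fun N : ℕ => N / t) atTop atTop :=
    Nat.tendsto_div_const_atTop (by omega)
  have h2 := hX.comp h1
  have h3 : Tendsto (fun N : ℕ => ((N / t : ℕ) : ℝ) / (N : ℝ)) atTop (nhds (1 / t)) := by
    have h4 : Tendsto (fun N : ℕ => (1 : ℝ) / t - 1 / (N : ℝ)) atTop (nhds (1 / t - 0)) :=
      tendsto_const_nhds.sub tendsto_one_div_atTop_nhds_zero_nat
    rw [sub_zero] at h4
    refine tendsto_of_tendsto_of_tendsto_of_le_of_le' h4 tendsto_const_nhds ?_ ?_
    · filter_upwards [eventually_gt_atTop 0] with N hN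
      have hNr : (0 : ℝ) < N := by exact_mod_cast hN
      have h5 : (N : ℝ) / t - 1 ≤ ((N / t : ℕ) : ℝ) := by
        have := Nat.lt_div_mul_add (a := N) (b := t) (by omega)
        have h6 : (N : ℝ) < ((N / t : ℕ) : ℝ) * t + t := by exact_mod_cast this
        rw [sub_le_iff_le_add, div_le_iff₀ htr]
        nlinarith
      have h7 : (1 : ℝ) / t - 1 / N = (N / t - 1) / N := by
        field_simp
      rw [h7]
      exact div_le_div_of_nonneg_right h5 hNr.le
    · filter_upwards [eventually_gt_atTop 0] with N hN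
      have hNr : (0 : ℝ) < N := by exact_mod_cast hN
      rw [div_le_div_iff₀ hNr htr, one_mul]
      exact_mod_cast Nat.div_mul_le_self N t
  have h5 := h2.mul h3
  have h6 : d * (1 / t) = d / t := by ring
  rw [h6] at h5
  refine h5.congr' ?_
  filter_upwards [eventually_ge_atTop t] with N hN
  have hq : 0 < N / t := Nat.div_pos hN (by omega)
  have hqr : ((N / t : ℕ) : ℝ) ≠ 0 := by positivity
  simp only [Function.comp]
  rw [cnt_dilate X ht N]
  field_simp

end Pool.Agent.LibGP
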