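import Mathlib
import Pool.Agent.LibGP.Density

set_option autoImplicit false

namespace Pool.Agent.LibGP

open Filter Topology

open Classical in
theorem cnt_eq_count (X : Set ℕ) (N : ℕ) : cnt X N = Nat.count (fun k => k + 1 ∈ X) N := by
  unfold cnt
  rw [Nat.count_eq_card_filter_range]
  have h : (X ∩ Set.Icc 1 N) =
      (((Finset.range N).filter (fun k => k + 1 ∈ X)).image (fun k => k + 1) : Finset ℕ) := by
    ext n
    simp only [Set.mem_inter_iff, Set.mem_Icc, Finset.coe_image, Finset.coe_filter,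
      Finset.mem_range, Set.mem_image, Set.mem_ofPred_eq]
    constructor
    · rintro ⟨h1, h2, h3⟩
      refine ⟨n - 1, ⟨by omega, ?_⟩, by omega⟩
      have : n - 1 + 1 = n := by omega
      rw [this]; exact h1
    · rintro ⟨k, ⟨h1, h2⟩, rfl⟩
      exact ⟨h2, by omega, by omega⟩
  rw [h, Set.ncard_coe_finset, Finset.card_image_of_injective]
  intro a b hab
  simpa using hab

open Classical in
theorem cnt_add_period {Y : Set ℕ} {W : ℕ} (hper : ∀ n, n ∈ Y ↔ n + W ∈ Y) (N : ℕ) :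
    cnt Y (W + N) = cnt Y W + cnt Y N := by
  rw [cnt_eq_count, cnt_eq_count, cnt_eq_count, Nat.count_add]
  congr 1
  have : (fun k => W + k + 1 ∈ Y) = (fun k => k + 1 ∈ Y) := by
    funext k
    rw [eq_iff_iff, hper (k + 1)]
    have : k + 1 + W = W + k + 1 := by ring
    rw [this]
  simp only [this]

theorem cnt_mul_period {Y : Set ℕ} {W : ℕ} (hper : ∀ n, n ∈ Y ↔ n + W ∈ Y) (q r : ℕ) :
    cnt Y (q * W + r) = q * cnt Y W + cnt Y r := by
  induction q with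
  | zero => simp
  | succ q ih =>
    have h : (q + 1) * W + r = W + (q * W + r) := by ring
    rw [h, cnt_add_period hper, ih]
    ring

theorem HasDens.of_periodic {Y : Set ℕ} {W : ℕ} (hW : 0 < W)
    (hper : ∀ n, n ∈ Y ↔ n + W ∈ Y) : HasDens Y ((cnt Y W : ℝ) / W) := by
  unfold HasDens
  have hWr : (0 : ℝ) < W := by exact_mod_cast hW
  have key : ∀ N : ℕ, |(cnt Y N : ℝ) - (cnt Y W : ℝ) / W * N| ≤ W := by
    intro N
    have h1 : cnt Y N = (N / W) * cnt Y W + cnt Y (N % W) := by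
      conv_lhs => rw [← Nat.div_add_mod' N W]
      exact cnt_mul_period hper _ _
    have h2 : (N : ℝ) = ((N / W : ℕ) : ℝ) * W + ((N % W : ℕ) : ℝ) := by
      exact_mod_cast (Nat.div_add_mod' N W).symm
    have h3 : ((cnt Y (N % W) : ℕ) : ℝ) ≤ ((N % W : ℕ) : ℝ) := by
      exact_mod_cast cnt_le Y (N % W)
    have h4 : ((N % W : ℕ) : ℝ) ≤ W := by
      exact_mod_cast (Nat.mod_lt N hW).le
    have h5 : ((cnt Y W : ℕ) : ℝ) ≤ W := by exact_mod_cast cnt_le Y W
    have h6 : (0 : ℝ) ≤ ((cnt Y (N % W) : ℕ) : ℝ) := by positivity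
    have h7 : (0 : ℝ) ≤ ((N % W : ℕ) : ℝ) := by positivity
    have h8 : (cnt Y W : ℝ) / W ≤ 1 := by
      rw [div_le_one hWr]; exact h5
    have h9 : (0 : ℝ) ≤ (cnt Y W : ℝ) / W := by positivity
    have h10 : (cnt Y N : ℝ) - (cnt Y W : ℝ) / W * N =
        (cnt Y (N % W) : ℝ) - (cnt Y W : ℝ) / W * ((N % W : ℕ) : ℝ) := by
      rw [h1]
      conv_lhs => rw [h2]
      push_cast
      field_simp
      ring
    rw [h10, abs_le]
    constructor
    · nlinarith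
    · nlinarith
  rw [Metric.tendsto_atTop]
  intro ε hε
  obtain ⟨N0, hN0⟩ := exists_nat_gt ((W : ℝ) / ε)
  refine ⟨N0 + 1, fun N hN => ?_⟩
  have hNpos : (0 : ℝ) < N := by
    have : 0 < N := by omega
    exact_mod_cast this
  rw [Real.dist_eq]
  have h1 : (cnt Y N : ℝ) / N - (cnt Y W : ℝ) / W =
      ((cnt Y N : ℝ) - (cnt Y W : ℝ) / W * N) / N := by
    field_simp
  rw [h1, abs_div, abs_of_pos hNpos, div_lt_iff₀ hNpos]
  have h2 : (N0 : ℝ) < N := by exact_mod_cast (by omega : N0 < N)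
  have h3 : (W : ℝ) < ε * N := by
    rw [div_lt_iff₀ hε] at hN0
    nlinarith
  exact (key N).trans_lt h3

/-- A set uniformly approximable by sets having a density has a density. -/
theorem HasDens.of_approx {X : Set ℕ}
    (h : ∀ ε : ℝ, 0 < ε → ∃ (Y : Set ℕ) (d : ℝ), HasDens Y d ∧
      ∀ N : ℕ, |(cnt X N : ℝ) - cnt Y N| ≤ ε * N) : ∃ d, HasDens X d := by
  unfold HasDens
  apply cauchySeq_tendsto_of_complete
  rw [Metric.cauchySeq_iff']
  intro ε hε
  obtain ⟨Y, d, hY, hXY⟩ := h (ε / 5) (by positivity)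
  have hc := (Metric.cauchySeq_iff'.1 hY.cauchySeq) (ε / 5) (by positivity)
  obtain ⟨N0, hN0⟩ := hc
  refine ⟨N0 + 1, fun N hN => ?_⟩
  have hdiff : ∀ K : ℕ, 0 < K → |(cnt X K : ℝ) / K - (cnt Y K : ℝ) / K| ≤ ε / 5 := by
    intro K hK
    have hKr : (0 : ℝ) < K := by exact_mod_cast hK
    rw [← sub_div, abs_div, abs_of_pos hKr, div_le_iff₀ hKr]
    exact hXY K
  have a1 := hdiff N (by omega)
  have a2 := hdiff (N0 + 1) (by omega)
  have a3 := hN0 N (by omega)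
  have a4 := hN0 (N0 + 1) (by omega)
  rw [Real.dist_eq] at a3 a4 ⊢
  rw [abs_le] at a1 a2
  rw [abs_lt] at a3 a4 ⊢
  constructor
  · linarith [a1.1, a1.2, a2.1, a2.2, a3.1, a3.2, a4.1, a4.2]
  · linarith [a1.1, a1.2, a2.1, a2.2, a3.1, a3.2, a4.1, a4.2]

/-- Telescoping bound for `∑ 1 / m ^ 2`. -/
theorem sum_sq_le (a : ℕ) (ha : 1 ≤ a) (b : ℕ) :
    ∑ m ∈ Finset.Ioc a b, (1 : ℝ) / (m : ℝ) ^ 2 ≤ 1 / a := by
  have har : (0 : ℝ) < a := by exact_mod_cast ha
  rcases le_or_gt b a with hb | hb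
  · rw [Finset.Ioc_eq_empty (by omega)]
    simp
  · have hb' : a ≤ b := hb.le
    clear hb
    have key : ∑ m ∈ Finset.Ioc a b, (1 : ℝ) / (m : ℝ) ^ 2 ≤ 1 / a - 1 / b := by
      induction b, hb' using Nat.le_induction with
      | base => simp
      | succ b hab ih =>
        have hbr : (0 : ℝ) < b := by exact_mod_cast (by omega : 0 < b)
        have hI : Finset.Ioc a (b + 1) = insert (b + 1) (Finset.Ioc a b) := by
          ext x; simp; omega
        rw [hI, Finset.sum_insert (by simp)]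
        have h1 : (1 : ℝ) / ((b + 1 : ℕ) : ℝ) ^ 2 ≤ 1 / b - 1 / ((b + 1 : ℕ) : ℝ) := by
          push_cast
          rw [div_sub_div _ _ (by positivity) (by positivity), div_le_div_iff₀ (by positivity) (by positivity)]
          nlinarith
        linarith
    have : (0 : ℝ) ≤ 1 / b := by positivity
    linarith

/-- Squarefree numbers coprime to all primes in `T`. -/
def SF (T : Finset ℕ) : Set ℕ := {n | 1 ≤ n ∧ Squarefree n ∧ ∀ p ∈ T, ¬ p ∣ n}

theorem cnt_mono_le {X Y : Set ℕ} {N : ℕ} (h : ∀ n, 1 ≤ n → n ≤ N → n ∈ X → n ∈ Y) :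
    cnt X N ≤ cnt Y N := by
  apply Set.ncard_le_ncard _ (fin_inter Y N)
  rintro n ⟨h1, h2⟩
  exact ⟨h n h2.1 h2.2 h1, h2⟩

/-- The set of numbers in `[1, N]` divisible by `m ^ 2` for some `m > z` is small. -/
theorem cnt_sq_dvd_le (z : ℕ) (hz : 1 ≤ z) (N : ℕ) :
    (cnt {n | ∃ m, z < m ∧ m ^ 2 ∣ n} N : ℝ) ≤ N / z := by
  have h1 : cnt {n | ∃ m, z < m ∧ m ^ 2 ∣ n} N ≤
      cnt (⋃ m ∈ Finset.Ioc z N, {n | m ^ 2 ∣ n}) N := by
    apply cnt_mono_le
    intro n hn1 hnN hn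
    obtain ⟨m, hm, hmn⟩ := hn
    simp only [Set.mem_iUnion]
    refine ⟨m, ?_, hmn⟩
    rw [Finset.mem_Ioc]
    refine ⟨hm, ?_⟩
    have h2 := Nat.le_of_dvd (by omega) hmn
    nlinarith
  have h2 : (cnt (⋃ m ∈ Finset.Ioc z N, {n | m ^ 2 ∣ n}) N : ℝ) ≤
      ∑ m ∈ Finset.Ioc z N, (N : ℝ) / (m : ℝ) ^ 2 := by
    have h3 := cnt_biUnion_le (Finset.Ioc z N) (fun m => {n | m ^ 2 ∣ n}) N
    have h4 : ((cnt (⋃ m ∈ Finset.Ioc z N, {n | m ^ 2 ∣ n}) N : ℕ) : ℝ) ≤
        ((∑ m ∈ Finset.Ioc z N, cnt {n | m ^ 2 ∣ n} N : ℕ) : ℝ) := by exact_mod_cast h3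
    refine h4.trans ?_
    push_cast
    apply Finset.sum_le_sum
    intro m hm
    rw [cnt_multiples]
    have := @Nat.cast_div_le ℝ _ _ _ N (m ^ 2)
    push_cast at this
    exact this
  have h3 : ∑ m ∈ Finset.Ioc z N, (N : ℝ) / (m : ℝ) ^ 2 =
      N * ∑ m ∈ Finset.Ioc z N, (1 : ℝ) / (m : ℝ) ^ 2 := by
    rw [Finset.mul_sum]
    apply Finset.sum_congr rfl
    intro m _
    ring
  have h4 := sum_sq_le z hz N
  calc (cnt {n | ∃ m, z < m ∧ m ^ 2 ∣ n} N : ℝ)
      ≤ (cnt (⋃ m ∈ Finset.Ioc z N, {n | m ^ 2 ∣ n}) N : ℝ) := by exact_mod_cast h1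
    _ ≤ N * ∑ m ∈ Finset.Ioc z N, (1 : ℝ) / (m : ℝ) ^ 2 := by rw [← h3]; exact h2
    _ ≤ N * (1 / z) := by
        apply mul_le_mul_of_nonneg_left h4 (by positivity)
    _ = N / z := by ring

/-- `SF T` has a natural density. -/
theorem SF_exists (T : Finset ℕ) (hT : ∀ p ∈ T, Nat.Prime p) : ∃ d, HasDens (SF T) d := by
  apply HasDens.of_approx
  intro ε hε
  obtain ⟨z, hz⟩ := exists_nat_gt (1 / ε)
  have hz1 : 1 ≤ z + 1 := by omega
  -- approximating periodic set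
  let Y : Set ℕ := {n | (∀ m ∈ Finset.Ioc 1 (z + 1), ¬ m ^ 2 ∣ n) ∧ ∀ p ∈ T, ¬ p ∣ n}
  let W : ℕ := (∏ m ∈ Finset.Ioc 1 (z + 1), m ^ 2) * ∏ p ∈ T, p
  have hW : 0 < W := by
    apply Nat.mul_pos
    · apply Finset.prod_pos
      intro m hm
      rw [Finset.mem_Ioc] at hm
      have : 0 < m := by omega
      positivity
    · exact Finset.prod_pos (fun p hp => (hT p hp).pos)
  have hper : ∀ n, n ∈ Y ↔ n + W ∈ Y := by
    intro n
    have h1 : ∀ m ∈ Finset.Ioc 1 (z + 1), (m ^ 2 ∣ n ↔ m ^ 2 ∣ n + W) := by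
      intro m hm
      have h2 : m ^ 2 ∣ W :=
        (Finset.dvd_prod_of_mem (fun m => m ^ 2) hm).trans (Dvd.intro _ rfl)
      exact (Nat.dvd_add_left h2).symm
    have h2 : ∀ p ∈ T, (p ∣ n ↔ p ∣ n + W) := by
      intro p hp
      have h2 : p ∣ W :=
        (Finset.dvd_prod_of_mem (fun p => p) hp).trans (Dvd.intro_left _ rfl)
      exact (Nat.dvd_add_left h2).symm
    constructor
    · rintro ⟨h3, h4⟩
      exact ⟨fun m hm => (h1 m hm).not.1 (h3 m hm), fun p hp => (h2 p hp).not.1 (h4 p hp)⟩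
    · rintro ⟨h3, h4⟩
      exact ⟨fun m hm => (h1 m hm).not.2 (h3 m hm), fun p hp => (h2 p hp).not.2 (h4 p hp)⟩
  refine ⟨Y, _, HasDens.of_periodic hW hper, fun N => ?_⟩
  have hsub : cnt (SF T) N ≤ cnt Y N := by
    apply cnt_mono
    intro n _ hn
    refine ⟨fun m hm hdvd => ?_, hn.2.2⟩
    rw [Finset.mem_Ioc] at hm
    have h3 := hn.2.1 m (by rw [← sq]; exact hdvd)
    rw [Nat.isUnit_iff] at h3
    omega
  have hsup : cnt Y N ≤ cnt (SF T) N + cnt {n | ∃ m, z + 1 < m ∧ m ^ 2 ∣ n} N := by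
    refine le_trans (cnt_mono (Y := SF T ∪ {n | ∃ m, z + 1 < m ∧ m ^ 2 ∣ n}) ?_ N)
      (cnt_union_le _ _ N)
    intro n hn1 hn
    by_cases hsq : Squarefree n
    · exact Or.inl ⟨hn1, hsq, hn.2⟩
    · right
      rw [Squarefree] at hsq
      push Not at hsq
      obtain ⟨m, hm, hm1⟩ := hsq
      rw [Nat.isUnit_iff] at hm1
      refine ⟨m, ?_, by rw [sq]; exact hm⟩
      by_contra hcon
      have hm0 : m ≠ 0 := by
        rintro rfl
        simp at hm
        omega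
      exact hn.1 m (by rw [Finset.mem_Ioc]; omega) (by rw [sq]; exact hm)
  have hsmall := cnt_sq_dvd_le (z + 1) hz1 N
  have hzr : (0 : ℝ) < z := lt_of_le_of_lt (by positivity) hz
  have h5 : (N : ℝ) / ((z + 1 : ℕ) : ℝ) ≤ ε * N := by
    rw [div_le_iff₀ (by positivity)]
    push_cast
    have : 1 < ε * z := by
      rw [div_lt_iff₀ hε] at hz
      linarith
    have hN : (0 : ℝ) ≤ N := by positivity
    nlinarith
  have h6 : (cnt (SF T) N : ℝ) ≤ cnt Y N := by exact_mod_cast hsub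
  have h7 : (cnt Y N : ℝ) ≤ cnt (SF T) N + cnt {n | ∃ m, z + 1 < m ∧ m ^ 2 ∣ n} N := by
    exact_mod_cast hsup
  rw [abs_le]
  constructor <;> linarith

/-- At least a quarter of the integers are squarefree. -/
theorem cnt_SF_empty (N : ℕ) : (N : ℝ) / 4 ≤ cnt (SF ∅) N := by
  have h1 : N ≤ cnt (SF ∅) N + (cnt {n | 2 ^ 2 ∣ n} N + cnt {n | ∃ m, 2 < m ∧ m ^ 2 ∣ n} N) := by
    have h0 : N = cnt Set.univ N := by
      unfold cnt
      rw [Set.univ_inter, Set.ncard_eq_toFinset_card']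
      simp
    conv_lhs => rw [h0]
    refine le_trans (cnt_mono (Y := SF ∅ ∪ ({n | 2 ^ 2 ∣ n} ∪ {n | ∃ m, 2 < m ∧ m ^ 2 ∣ n})) ?_ N)
      ((cnt_union_le _ _ N).trans (Nat.add_le_add_left (cnt_union_le _ _ N) _))
    intro n hn1 _
    by_cases hsq : Squarefree n
    · exact Or.inl ⟨hn1, hsq, by simp⟩
    · right
      rw [Squarefree] at hsq
      push Not at hsq
      obtain ⟨m, hm, hm1⟩ := hsq
      rw [Nat.isUnit_iff] at hm1
      have hm0 : m ≠ 0 := by
        rintro rfl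
        simp at hm
        omega
      rcases Nat.lt_or_ge 2 m with h2 | h2
      · right
        exact ⟨m, h2, by rw [sq]; exact hm⟩
      · left
        have : m = 2 := by omega
        subst this
        show 2 ^ 2 ∣ n
        rw [sq]; exact hm
  have h2 := cnt_sq_dvd_le 2 (by norm_num) N
  have h3 : (cnt {n | 2 ^ 2 ∣ n} N : ℝ) ≤ N / 4 := by
    rw [cnt_multiples]
    have := @Nat.cast_div_le ℝ _ _ _ N (2 ^ 2)
    push_cast at this
    norm_num at this ⊢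
    exact this
  generalize cnt {n | 2 ^ 2 ∣ n} N = x at h1 h3
  generalize cnt {n | ∃ m, 2 < m ∧ m ^ 2 ∣ n} N = y at h1 h2
  have h4 : (N : ℝ) ≤ cnt (SF ∅) N + (x + y) := by exact_mod_cast h1
  push_cast at h2
  linarith

/-- Comparison of `SF ∅` with `SF T`. -/
theorem cnt_SF_le (T : Finset ℕ) (hT : ∀ p ∈ T, Nat.Prime p) (N : ℕ) :
    cnt (SF ∅) N ≤ (∏ p ∈ T, p).divisors.card * cnt (SF T) N := by
  classical
  set M := ∏ p ∈ T, p with hM
  have hM0 : M ≠ 0 := Finset.prod_ne_zero_iff.2 (fun p hp => (hT p hp).ne_zero)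
  let F : Finset (ℕ × ℕ) := M.divisors ×ˢ (fin_inter (SF T) N).toFinset
  have hF : F.card = M.divisors.card * cnt (SF T) N := by
    rw [Finset.card_product, cnt, Set.ncard_eq_toFinset_card _ (fin_inter (SF T) N)]
  rw [← hF]
  unfold cnt
  rw [Set.ncard_eq_toFinset_card _ (fin_inter (SF ∅) N)]
  apply Finset.card_le_card_of_injOn (fun n => (Nat.gcd n M, n / Nat.gcd n M))
  · intro n hn
    simp only [Set.Finite.coe_toFinset] at hn
    obtain ⟨⟨hn1, hsq, -⟩, -, hnN⟩ := hn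
    have hg : Nat.gcd n M ∣ n := Nat.gcd_dvd_left n M
    have hgM : Nat.gcd n M ∣ M := Nat.gcd_dvd_right n M
    have hgpos : 0 < Nat.gcd n M := Nat.gcd_pos_of_pos_left _ (by omega)
    obtain ⟨m, hm⟩ := hg
    have hdiv : n / Nat.gcd n M = m := Nat.div_eq_of_eq_mul_right hgpos hm
    have hmdvd : m ∣ n := ⟨Nat.gcd n M, by rw [mul_comm]; exact hm⟩
    have hm1 : 1 ≤ m := Nat.pos_of_ne_zero (fun h => by rw [h] at hm; omega)
    simp only [F, Finset.coe_product, Set.mem_prod, Finset.mem_coe, Nat.mem_divisors,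
      Set.Finite.coe_toFinset]
    refine ⟨⟨hgM, hM0⟩, ?_⟩
    rw [hdiv]
    refine ⟨⟨hm1, Squarefree.squarefree_of_dvd hmdvd hsq, ?_⟩, hm1,
      (Nat.le_of_dvd (by omega) hmdvd).trans hnN⟩
    intro p hp hpm
    have hpM : p ∣ M := Finset.dvd_prod_of_mem (fun p => p) hp
    have hpn : p ∣ n := hpm.trans hmdvd
    have hpg : p ∣ Nat.gcd n M := Nat.dvd_gcd hpn hpM
    have hpp : p * p ∣ n := by
      rw [hm]
      exact Nat.mul_dvd_mul hpg hpm
    have := hsq p hpp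
    rw [Nat.isUnit_iff] at this
    exact (hT p hp).one_lt.ne' this
  · intro a ha b hb hab
    simp only [Prod.mk.injEq] at hab
    have h1 := Nat.mul_div_cancel' (Nat.gcd_dvd_left a M)
    have h2 := Nat.mul_div_cancel' (Nat.gcd_dvd_left b M)
    rw [← h1, ← h2, hab.2, hab.1]

theorem SF_dens_pos (T : Finset ℕ) (hT : ∀ p ∈ T, Nat.Prime p) :
    ∃ d, 0 < d ∧ HasDens (SF T) d := by
  obtain ⟨d, hd⟩ := SF_exists T hT
  refine ⟨d, ?_, hd⟩
  set D : ℕ := (∏ p ∈ T, p).divisors.card with hD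
  have hM0 : (∏ p ∈ T, p) ≠ 0 := Finset.prod_ne_zero_iff.2 (fun p hp => (hT p hp).ne_zero)
  have hDpos : 0 < D := Finset.card_pos.2 (Nat.nonempty_divisors.2 hM0)
  have hDr : (0 : ℝ) < D := by exact_mod_cast hDpos
  have h1 : (1 : ℝ) / (4 * D) ≤ d := by
    apply ge_of_tendsto hd
    filter_upwards [eventually_gt_atTop 0] with N hN
    have hNr : (0 : ℝ) < N := by exact_mod_cast hN
    have h2 := cnt_SF_empty N
    have h3 : (cnt (SF ∅) N : ℝ) ≤ D * cnt (SF T) N := by exact_mod_cast cnt_SF_le T hT N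
    rw [div_le_div_iff₀ (by positivity) hNr]
    nlinarith
  exact lt_of_lt_of_le (by positivity) h1

end Pool.Agent.LibGP
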