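import Mathlib
import Pool.Agent.LibGP.Exist

set_option autoImplicit false

namespace Pool.Agent.LibGP

open Filter Topology

/-- All base-3 digits are at most 1. -/
def A (e : ℕ) : Prop := ∀ d ∈ Nat.digits 3 e, d ≤ 1

theorem A_zero : A 0 := by simp [A]

theorem A_one : A 1 := by
  unfold A; norm_num

theorem not_A_two : ¬ A 2 := by
  unfold A; norm_num

theorem A_three : A 3 := by
  unfold A; norm_num

theorem A_four : A 4 := by
  unfold A; norm_num

theorem A_step (e : ℕ) : A e ↔ e % 3 ≤ 1 ∧ A (e / 3) := by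
  rcases Nat.eq_zero_or_pos e with h | h
  · subst h; simp [A]
  · unfold A
    rw [Nat.digits_def' (by norm_num) h]
    simp

theorem A_AP : ∀ y x z : ℕ, A x → A y → A z → x + z = 2 * y → x = y ∧ z = y := by
  intro y
  induction y using Nat.strong_induction_on with
  | _ y ih =>
    intro x z hx hy hz h
    rcases Nat.eq_zero_or_pos y with h0 | h0
    · omega
    · rw [A_step] at hx hy hz
      have h1 := ih (y / 3) (by omega) (x / 3) (z / 3) hx.2 hy.2 hz.2 (by omega)
      omega

/-- APs with last term `2`. -/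
theorem A_end_two (x y : ℕ) (hx : A x) (hy : A y) (h : x + 2 = 2 * y) : y = 1 ∨ y = 3 := by
  rw [A_step] at hx hy
  rcases (by omega : y % 3 = 0 ∨ y % 3 = 1) with h0 | h1
  · have := A_AP (y / 3) (x / 3) 1 hx.2 hy.2 A_one (by omega)
    omega
  · have := A_AP (y / 3) (x / 3) 0 hx.2 hy.2 A_zero (by omega)
    omega

/-- APs with middle term `2`. -/
theorem A_mid_two (x z : ℕ) (hx : A x) (h : x + z = 2 * 2) :
    (x = 0 ∨ x = 1 ∨ x = 3 ∨ x = 4) ∧ (z = 0 ∨ z = 1 ∨ z = 3 ∨ z = 4) := by
  have hx2 : x ≠ 2 := fun h => not_A_two (h ▸ hx)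
  omega

/-- The set `G` of the problem. -/
def G : Set ℕ := {n : ℕ | 1 ≤ n ∧ ∀ p : ℕ, A (n.factorization p)}

/-- The exponent pattern: `i` at `2`, `j` at `p`, `1` elsewhere. -/
def ex (i j p : ℕ) (r : ℕ) : ℕ := if r = 2 then i else if r = p then j else 1

/-- The integer with exponent pattern `ex i j p` on the primes of `T`. -/
def tt (T : Finset ℕ) (i j p : ℕ) : ℕ := ∏ r ∈ T, r ^ ex i j p r

theorem tt_pos {T : Finset ℕ} (hT : ∀ p ∈ T, Nat.Prime p) (i j p : ℕ) : 0 < tt T i j p :=
  Finset.prod_pos (fun r hr => pow_pos (hT r hr).pos _)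

theorem prod_pow_factorization {T : Finset ℕ} (hT : ∀ p ∈ T, Nat.Prime p) (e : ℕ → ℕ) (r : ℕ) :
    (∏ p ∈ T, p ^ e p).factorization r = if r ∈ T then e r else 0 := by
  classical
  rw [Nat.factorization_prod (fun p hp => pow_ne_zero _ (hT p hp).ne_zero)]
  rw [Finsupp.finsetSum_apply]
  by_cases hr : r ∈ T
  · rw [if_pos hr, Finset.sum_eq_single r]
    · rw [Nat.Prime.factorization_pow (hT r hr)]
      simp
    · intro q hq hne
      rw [Nat.Prime.factorization_pow (hT q hq)]
      simp [hne]
    · intro h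
      exact absurd hr h
  · rw [if_neg hr]
    apply Finset.sum_eq_zero
    intro q hq
    rw [Nat.Prime.factorization_pow (hT q hq)]
    have : q ≠ r := fun h => hr (h ▸ hq)
    simp [this]

theorem tt_factorization {T : Finset ℕ} (hT : ∀ p ∈ T, Nat.Prime p) (i j p r : ℕ) :
    (tt T i j p).factorization r = if r ∈ T then ex i j p r else 0 :=
  prod_pow_factorization hT _ r

theorem SF_factorization {T : Finset ℕ} {m : ℕ} (hm : m ∈ SF T) {r : ℕ} (hr : r ∈ T) :
    m.factorization r = 0 :=
  Nat.factorization_eq_zero_of_not_dvd (hm.2.2 r hr)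

theorem SF_factorization_le {T : Finset ℕ} {m : ℕ} (hm : m ∈ SF T) (r : ℕ) :
    m.factorization r ≤ 1 := hm.2.1.natFactorization_le_one r

theorem mul_factorization {T : Finset ℕ} (hT : ∀ p ∈ T, Nat.Prime p) {m : ℕ} (hm : m ∈ SF T)
    (i j p r : ℕ) : (tt T i j p * m).factorization r =
      if r ∈ T then ex i j p r else m.factorization r := by
  rw [Nat.factorization_mul (tt_pos hT i j p).ne' (by have := hm.1; omega)]
  rw [Finsupp.add_apply, tt_factorization hT]
  split_ifs with h
  · rw [SF_factorization hm h, add_zero]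
  · rw [zero_add]

/-- The index set of removed patterns, with the prime `p`. -/
def Cset : Finset (ℕ × ℕ) :=
  {(1, 1), (3, 1), (0, 3), (1, 3), (3, 3), (4, 3), (0, 4), (1, 4), (3, 4), (4, 4)}

/-- Removed `T`-parts. -/
def Rset (T : Finset ℕ) : Finset ℕ :=
  (T.erase 2).biUnion (fun p => Cset.image (fun c => tt T c.1 c.2 p))

/-- Added `T`-parts. -/
def Qset (T : Finset ℕ) : Finset ℕ := (T.erase 2).image (fun p => tt T 2 2 p)

/-- Dilate of `SF T`. -/
def Dil (T : Finset ℕ) (t : ℕ) : Set ℕ := {n | ∃ m ∈ SF T, n = t * m}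

/-- The modified set. -/
def S (T : Finset ℕ) : Set ℕ :=
  (G \ ⋃ t ∈ Rset T, Dil T t) ∪ ⋃ t ∈ Qset T, Dil T t


theorem mem_removed {T : Finset ℕ} (hT : ∀ p ∈ T, Nat.Prime p) {n m p i j : ℕ} (hn : 1 ≤ n)
    (hp : p ∈ T.erase 2) (hm : m ∈ SF T) (hc : (i, j) ∈ Cset)
    (h2 : n.factorization 2 = i) (hpj : n.factorization p = j)
    (hr : ∀ r ∈ T, r ≠ 2 → r ≠ p → n.factorization r = 1)
    (hout : ∀ r, r ∉ T → n.factorization r = m.factorization r) :
    n ∈ ⋃ t ∈ Rset T, Dil T t := by
  simp only [Set.mem_iUnion]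
  refine ⟨tt T i j p, ?_, m, hm, ?_⟩
  · unfold Rset
    rw [Finset.mem_biUnion]
    exact ⟨p, hp, Finset.mem_image.2 ⟨(i, j), hc, rfl⟩⟩
  · have hm1 : 1 ≤ m := hm.1
    have hpos := tt_pos hT i j p
    apply Nat.eq_of_factorization_eq (by omega) (Nat.mul_ne_zero (by omega) (by omega))
    intro r
    rw [mul_factorization hT hm]
    split_ifs with h
    · unfold ex
      split_ifs with h3 h4
      · rw [h3]; exact h2
      · rw [h4]; exact hpj
      · exact hr r h h3 h4
    · exact hout r h

/-- Elements of the second kind. -/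
theorem second_kind {T : Finset ℕ} (hT : ∀ p ∈ T, Nat.Prime p) {n : ℕ}
    (hn : n ∈ ⋃ t ∈ Qset T, Dil T t) :
    ∃ p ∈ T.erase 2, ∃ m ∈ SF T, 1 ≤ n ∧ ∀ r, n.factorization r =
      if r ∈ T then ex 2 2 p r else m.factorization r := by
  simp only [Set.mem_iUnion] at hn
  obtain ⟨t, ht, m, hm, rfl⟩ := hn
  unfold Qset at ht
  rw [Finset.mem_image] at ht
  obtain ⟨p, hp, rfl⟩ := ht
  refine ⟨p, hp, m, hm, ?_, fun r => mul_factorization hT hm 2 2 p r⟩
  exact Nat.mul_pos (tt_pos hT 2 2 p) (by have := hm.1; omega)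

theorem A_le_one {e : ℕ} (h : e ≤ 1) : A e := by
  rcases (by omega : e = 0 ∨ e = 1) with h | h
  · rw [h]; exact A_zero
  · rw [h]; exact A_one

/-- One element of the second kind at an end, the two others of the first kind. -/
theorem end_case {T : Finset ℕ} (hT : ∀ p ∈ T, Nat.Prime p) (h2T : 2 ∈ T) {x y q : ℕ}
    (hx : x ∈ G) (hy : y ∈ G) (hy' : y ∉ ⋃ t ∈ Rset T, Dil T t)
    (hq : q ∈ ⋃ t ∈ Qset T, Dil T t)
    (h : ∀ r, x.factorization r + q.factorization r = 2 * y.factorization r) : False := by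
  obtain ⟨p, hp, m, hm, hq1, hqf⟩ := second_kind hT hq
  rw [Finset.mem_erase] at hp
  have e2 : q.factorization 2 = 2 := by rw [hqf, if_pos h2T]; simp [ex]
  have ep : q.factorization p = 2 := by rw [hqf, if_pos hp.2]; simp [ex]
  have y2 := A_end_two _ _ (hx.2 2) (hy.2 2) (by rw [← h 2, e2])
  have yp := A_end_two _ _ (hx.2 p) (hy.2 p) (by rw [← h p, ep])
  apply hy'
  refine mem_removed hT (i := y.factorization 2) (j := y.factorization p) hy.1
    (Finset.mem_erase.2 hp) hm ?_ rfl rfl ?_ ?_
  · rcases y2 with h1 | h1 <;> rcases yp with h3 | h3 <;> rw [h1, h3] <;> decide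
  · intro r hr hr2 hrp
    have er : q.factorization r = 1 := by rw [hqf, if_pos hr]; simp [ex, hr2, hrp]
    have := A_AP _ _ _ (hx.2 r) (hy.2 r) A_one (by rw [← h r, er])
    exact this.2.symm
  · intro r hr
    have er : q.factorization r = m.factorization r := by rw [hqf, if_neg hr]
    have := A_AP _ _ _ (hx.2 r) (hy.2 r) (A_le_one (SF_factorization_le hm r))
      (by rw [← h r, er])
    exact this.2.symm

/-- One element of the second kind in the middle, the two others of the first kind. -/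
theorem mid_case {T : Finset ℕ} (hT : ∀ p ∈ T, Nat.Prime p) (h2T : 2 ∈ T) {x q z : ℕ}
    (hx : x ∈ G) (hz : z ∈ G) (hx' : x ∉ ⋃ t ∈ Rset T, Dil T t)
    (hz' : z ∉ ⋃ t ∈ Rset T, Dil T t)
    (hq : q ∈ ⋃ t ∈ Qset T, Dil T t)
    (h : ∀ r, x.factorization r + z.factorization r = 2 * q.factorization r) : False := by
  obtain ⟨p, hp, m, hm, hq1, hqf⟩ := second_kind hT hq
  rw [Finset.mem_erase] at hp
  have e2 : q.factorization 2 = 2 := by rw [hqf, if_pos h2T]; simp [ex]
  have ep : q.factorization p = 2 := by rw [hqf, if_pos hp.2]; simp [ex]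
  have x2 := A_mid_two _ _ (hx.2 2) (by rw [h 2, e2])
  have xp := A_mid_two _ _ (hx.2 p) (by rw [h p, ep])
  have h2' := h 2
  have hp' := h p
  rw [e2] at h2'
  rw [ep] at hp'
  have er1 : ∀ r ∈ T, r ≠ 2 → r ≠ p → x.factorization r = 1 ∧ z.factorization r = 1 := by
    intro r hr hr2 hrp
    have er : q.factorization r = 1 := by rw [hqf, if_pos hr]; simp [ex, hr2, hrp]
    exact A_AP _ _ _ (hx.2 r) A_one (hz.2 r) (by rw [h r, er])
  have er2 : ∀ r, r ∉ T → x.factorization r = m.factorization r ∧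
      z.factorization r = m.factorization r := by
    intro r hr
    have er : q.factorization r = m.factorization r := by rw [hqf, if_neg hr]
    exact A_AP _ _ _ (hx.2 r) (A_le_one (SF_factorization_le hm r)) (hz.2 r) (by rw [h r, er])
  have hcase : (x.factorization p = 3 ∨ x.factorization p = 4) ∨
      (z.factorization p = 3 ∨ z.factorization p = 4) := by omega
  rcases hcase with hc | hc
  · apply hx'
    refine mem_removed hT (i := x.factorization 2) (j := x.factorization p) hx.1
      (Finset.mem_erase.2 hp) hm ?_ rfl rfl (fun r hr a b => (er1 r hr a b).1)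
      (fun r hr => (er2 r hr).1)
    rcases x2.1 with h1 | h1 | h1 | h1 <;> rcases hc with h3 | h3 <;> rw [h1, h3] <;> decide
  · apply hz'
    refine mem_removed hT (i := z.factorization 2) (j := z.factorization p) hz.1
      (Finset.mem_erase.2 hp) hm ?_ rfl rfl (fun r hr a b => (er1 r hr a b).2)
      (fun r hr => (er2 r hr).2)
    rcases x2.2 with h1 | h1 | h1 | h1 <;> rcases hc with h3 | h3 <;> rw [h1, h3] <;> decide

theorem S_pos {T : Finset ℕ} (hT : ∀ p ∈ T, Nat.Prime p) : ∀ n ∈ S T, 1 ≤ n := by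
  rintro n (h | h)
  · exact h.1.1
  · obtain ⟨p, -, m, -, h1, -⟩ := second_kind hT h
    exact h1

theorem S_free {T : Finset ℕ} (hT : ∀ p ∈ T, Nat.Prime p) (h2T : 2 ∈ T) :
    ∀ a ∈ S T, ∀ b ∈ S T, ∀ c ∈ S T, a < b → b < c → b ^ 2 ≠ a * c := by
  intro a ha b hb c hc hab hbc heq
  have ha1 := S_pos hT a ha
  have hb1 := S_pos hT b hb
  have hc1 := S_pos hT c hc
  have h : ∀ r, a.factorization r + c.factorization r = 2 * b.factorization r := by
    intro r
    have h1 := congrArg (fun n => n.factorization r) heq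
    simp only [Nat.factorization_pow, Finsupp.smul_apply, smul_eq_mul] at h1
    rw [Nat.factorization_mul (by omega) (by omega), Finsupp.add_apply] at h1
    exact h1.symm
  have h' : ∀ r, c.factorization r + a.factorization r = 2 * b.factorization r := by
    intro r; rw [add_comm]; exact h r
  -- the exponent at 2 separates the two kinds
  have hfirst : ∀ n, n ∈ G → n.factorization 2 ≠ 2 := fun n hn h => not_A_two (h ▸ hn.2 2)
  have hsecond : ∀ n, n ∈ (⋃ t ∈ Qset T, Dil T t) → n.factorization 2 = 2 := by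
    intro n hn
    obtain ⟨p, hp, m, hm, -, hf⟩ := second_kind hT hn
    rw [hf, if_pos h2T]; simp [ex]
  have hne : a ≠ b := hab.ne
  rcases ha with ⟨haG, haR⟩ | haQ
  · rcases hb with ⟨hbG, hbR⟩ | hbQ
    · rcases hc with ⟨hcG, hcR⟩ | hcQ
      · -- all first kind
        apply hne
        apply Nat.eq_of_factorization_eq (by omega) (by omega)
        intro r
        exact (A_AP _ _ _ (haG.2 r) (hbG.2 r) (hcG.2 r) (h r)).1
      · exact end_case hT h2T haG hbG hbR hcQ h
    · rcases hc with ⟨hcG, hcR⟩ | hcQ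
      · exact mid_case hT h2T haG hcG haR hcR hbQ h
      · have h1 := hfirst a haG
        have h2 := hsecond b hbQ
        have h3 := hsecond c hcQ
        have h4 := h 2
        omega
  · rcases hb with ⟨hbG, hbR⟩ | hbQ
    · rcases hc with ⟨hcG, hcR⟩ | hcQ
      · exact end_case hT h2T hcG hbG hbR haQ h'
      · have h1 := hfirst b hbG
        have h2 := hsecond a haQ
        have h3 := hsecond c hcQ
        have h4 := h 2
        omega
    · rcases hc with ⟨hcG, hcR⟩ | hcQ
      · have h1 := hfirst c hcG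
        have h2 := hsecond b hbQ
        have h3 := hsecond a haQ
        have h4 := h 2
        omega
      · -- all second kind
        apply hne
        apply Nat.eq_of_factorization_eq (by omega) (by omega)
        intro r
        obtain ⟨p1, hp1, m1, hm1, -, hf1⟩ := second_kind hT haQ
        obtain ⟨p2, hp2, m2, hm2, -, hf2⟩ := second_kind hT hbQ
        obtain ⟨p3, hp3, m3, hm3, -, hf3⟩ := second_kind hT hcQ
        have h4 := h r
        have g1 := hf1 r
        have g2 := hf2 r
        have g3 := hf3 r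
        have s1 := SF_factorization_le hm1 r
        have s2 := SF_factorization_le hm2 r
        have s3 := SF_factorization_le hm3 r
        by_cases hr : r ∈ T
        · rw [if_pos hr] at g1 g2 g3
          unfold ex at g1 g2 g3
          split_ifs at g1 g2 g3 <;> omega
        · rw [if_neg hr] at g1 g2 g3
          omega

end Pool.Agent.LibGP
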