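import Mathlib
import Pool.Agent.LibGP.Construct

set_option autoImplicit false

namespace Pool.Agent.LibGP

open Filter Topology

theorem Cset_A : ∀ c ∈ Cset, A c.1 ∧ A c.2 := by
  intro c hc
  have h0 := A_zero
  have h1 := A_one
  have h3 := A_three
  have h4 := A_four
  simp only [Cset, Finset.mem_insert, Finset.mem_singleton] at hc
  rcases hc with h | h | h | h | h | h | h | h | h | h <;> rw [h] <;> simp_all

/-- Removed dilates lie in `G`. -/
theorem Dil_R_sub {T : Finset ℕ} (hT : ∀ p ∈ T, Nat.Prime p) {t : ℕ} (ht : t ∈ Rset T) {n : ℕ}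
    (hn : n ∈ Dil T t) : n ∈ G := by
  unfold Rset at ht
  rw [Finset.mem_biUnion] at ht
  obtain ⟨p, hp, ht⟩ := ht
  rw [Finset.mem_image] at ht
  obtain ⟨c, hc, rfl⟩ := ht
  obtain ⟨m, hm, rfl⟩ := hn
  refine ⟨Nat.mul_pos (tt_pos hT _ _ _) (by have := hm.1; omega), fun r => ?_⟩
  rw [mul_factorization hT hm]
  split_ifs with h
  · unfold ex
    split_ifs
    · exact (Cset_A c hc).1
    · exact (Cset_A c hc).2
    · exact A_one
  · exact A_le_one (SF_factorization_le hm r)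

/-- All `T`-parts considered are supported on `T`. -/
theorem R_smooth {T : Finset ℕ} (hT : ∀ p ∈ T, Nat.Prime p) {t : ℕ} (ht : t ∈ Rset T) :
    0 < t ∧ ∀ r, r ∉ T → t.factorization r = 0 := by
  unfold Rset at ht
  rw [Finset.mem_biUnion] at ht
  obtain ⟨p, hp, ht⟩ := ht
  rw [Finset.mem_image] at ht
  obtain ⟨c, hc, rfl⟩ := ht
  exact ⟨tt_pos hT _ _ _, fun r hr => by rw [tt_factorization hT, if_neg hr]⟩

theorem Q_smooth {T : Finset ℕ} (hT : ∀ p ∈ T, Nat.Prime p) {t : ℕ} (ht : t ∈ Qset T) :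
    0 < t ∧ ∀ r, r ∉ T → t.factorization r = 0 := by
  unfold Qset at ht
  rw [Finset.mem_image] at ht
  obtain ⟨c, hc, rfl⟩ := ht
  exact ⟨tt_pos hT _ _ _, fun r hr => by rw [tt_factorization hT, if_neg hr]⟩

theorem Dil_disj {T : Finset ℕ} {t t' : ℕ} (ht : 0 < t ∧ ∀ r, r ∉ T → t.factorization r = 0)
    (ht' : 0 < t' ∧ ∀ r, r ∉ T → t'.factorization r = 0) (hne : t ≠ t') (n : ℕ)
    (hn : n ∈ Dil T t) : n ∉ Dil T t' := by
  intro hn'
  obtain ⟨m, hm, h⟩ := hn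
  obtain ⟨m', hm', h'⟩ := hn'
  apply hne
  apply Nat.eq_of_factorization_eq (by omega) (by omega)
  intro r
  by_cases hr : r ∈ T
  · have e1 : n.factorization r = t.factorization r := by
      rw [h, Nat.factorization_mul (by omega) (by have := hm.1; omega), Finsupp.add_apply,
        SF_factorization hm hr, add_zero]
    have e2 : n.factorization r = t'.factorization r := by
      rw [h', Nat.factorization_mul (by omega) (by have := hm'.1; omega), Finsupp.add_apply,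
        SF_factorization hm' hr, add_zero]
    omega
  · rw [ht.2 r hr, ht'.2 r hr]

theorem S_dens {T : Finset ℕ} (hT : ∀ p ∈ T, Nat.Prime p) (h2T : 2 ∈ T) {δ κ : ℝ}
    (hG : HasDens G δ) (hκ : HasDens (SF T) κ) :
    HasDens (S T) (δ - ∑ t ∈ Rset T, κ / t + ∑ t ∈ Qset T, κ / t) := by
  have hR : HasDens (⋃ t ∈ Rset T, Dil T t) (∑ t ∈ Rset T, κ / t) := by
    apply HasDens.biUnion
    · intro t ht
      exact hκ.dilate (R_smooth hT ht).1
    · intro t ht t' ht' hne n _ hn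
      exact Dil_disj (R_smooth hT ht) (R_smooth hT ht') hne n hn
  have hQ : HasDens (⋃ t ∈ Qset T, Dil T t) (∑ t ∈ Qset T, κ / t) := by
    apply HasDens.biUnion
    · intro t ht
      exact hκ.dilate (Q_smooth hT ht).1
    · intro t ht t' ht' hne n _ hn
      exact Dil_disj (Q_smooth hT ht) (Q_smooth hT ht') hne n hn
  unfold S
  apply HasDens.union
  · apply HasDens.sdiff hG hR
    intro n _ hn
    simp only [Set.mem_iUnion] at hn
    obtain ⟨t, ht, hn⟩ := hn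
    exact Dil_R_sub hT ht hn
  · exact hQ
  · intro n _ hn hn'
    obtain ⟨p, hp, m, hm, -, hf⟩ := second_kind hT hn'
    have e2 : n.factorization 2 = 2 := by rw [hf, if_pos h2T]; simp [ex]
    exact not_A_two (e2 ▸ hn.1.2 2)

theorem tt_mul {T : Finset ℕ} (h2T : 2 ∈ T) {p : ℕ} (hp : p ∈ T.erase 2) (i j : ℕ) :
    tt T i j p * (2 * p) = (∏ r ∈ T, r) * (2 ^ i * p ^ j) := by
  rw [Finset.mem_erase] at hp
  unfold tt
  rw [← Finset.mul_prod_erase T _ h2T, ← Finset.mul_prod_erase T (fun r => r) h2T]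
  have hp' : p ∈ T.erase 2 := Finset.mem_erase.2 hp
  rw [← Finset.mul_prod_erase (T.erase 2) _ hp', ← Finset.mul_prod_erase (T.erase 2) (fun r => r) hp']
  have h1 : ∏ r ∈ (T.erase 2).erase p, r ^ ex i j p r = ∏ r ∈ (T.erase 2).erase p, r := by
    apply Finset.prod_congr rfl
    intro r hr
    rw [Finset.mem_erase, Finset.mem_erase] at hr
    have : ex i j p r = 1 := by simp [ex, hr.1, hr.2.1]
    rw [this, pow_one]
  rw [h1]
  have e2 : ex i j p 2 = i := by simp [ex]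
  have ep : ex i j p p = j := by simp [ex, hp.1]
  rw [e2, ep]
  ring

theorem tt_one (T : Finset ℕ) (i p : ℕ) : tt T i 1 p = tt T i 1 0 := by
  unfold tt
  apply Finset.prod_congr rfl
  intro r _
  congr 1
  unfold ex
  split_ifs <;> rfl

theorem sum_biUnion_le' {ι : Type*} [DecidableEq ι] (s : Finset ι) (f : ι → Finset ℕ)
    (g : ℕ → ℝ) (hg : ∀ n, 0 ≤ g n) :
    ∑ t ∈ s.biUnion f, g t ≤ ∑ i ∈ s, ∑ t ∈ f i, g t := by
  induction s using Finset.induction_on with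
  | empty => simp
  | insert a s ha ih =>
    rw [Finset.biUnion_insert, Finset.sum_insert ha]
    have h1 : ∑ t ∈ f a ∪ s.biUnion f, g t ≤ ∑ t ∈ f a, g t + ∑ t ∈ s.biUnion f, g t := by
      have := Finset.sum_union_inter (s₁ := f a) (s₂ := s.biUnion f) (f := g)
      have h2 : 0 ≤ ∑ t ∈ f a ∩ s.biUnion f, g t := Finset.sum_nonneg (fun t _ => hg t)
      linarith
    linarith

theorem sum_image_le' {ι : Type*} [DecidableEq ι] (s : Finset ι) (f : ι → ℕ)
    (g : ℕ → ℝ) (hg : ∀ n, 0 ≤ g n) :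
    ∑ t ∈ s.image f, g t ≤ ∑ i ∈ s, g (f i) := by
  have h : s.image f = s.biUnion (fun i => {f i}) := by
    ext x; simp [eq_comm]
  rw [h]
  refine (sum_biUnion_le' s (fun i => {f i}) g hg).trans ?_
  simp

/-- Patterns with exponent at least `3` at `p`. -/
def Cset' : Finset (ℕ × ℕ) :=
  {(0, 3), (1, 3), (3, 3), (4, 3), (0, 4), (1, 4), (3, 4), (4, 4)}

theorem R_subset (T : Finset ℕ) : Rset T ⊆
    {tt T 1 1 0, tt T 3 1 0} ∪ (T.erase 2).biUnion (fun p => Cset'.image (fun c => tt T c.1 c.2 p)) := by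
  intro t ht
  unfold Rset at ht
  rw [Finset.mem_biUnion] at ht
  obtain ⟨p, hp, ht⟩ := ht
  rw [Finset.mem_image] at ht
  obtain ⟨c, hc, rfl⟩ := ht
  rw [Finset.mem_union]
  by_cases h : c ∈ Cset'
  · right
    rw [Finset.mem_biUnion]
    exact ⟨p, hp, Finset.mem_image.2 ⟨c, h, rfl⟩⟩
  · left
    have : c = (1, 1) ∨ c = (3, 1) := by
      simp only [Cset, Cset', Finset.mem_insert, Finset.mem_singleton] at hc h
      tauto
    rcases this with rfl | rfl
    · simp [tt_one T 1 p]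
    · simp [tt_one T 3 p]

theorem R_sum_le {T : Finset ℕ} (hT : ∀ p ∈ T, Nat.Prime p) (h2T : 2 ∈ T) {p0 : ℕ}
    (hp0 : p0 ∈ T.erase 2) :
    ∑ t ∈ Rset T, (1 : ℝ) / t ≤ (1 / ((∏ r ∈ T, r : ℕ) : ℝ)) *
      (5 / 4 + 27 / 4 * ∑ p ∈ T.erase 2, (1 : ℝ) / (p : ℝ) ^ 2) := by
  have hM : (0 : ℝ) < ((∏ r ∈ T, r : ℕ) : ℝ) := by
    exact_mod_cast Finset.prod_pos (fun r hr => (hT r hr).pos)
  set M : ℝ := ((∏ r ∈ T, r : ℕ) : ℝ) with hMdef
  have hg : ∀ n : ℕ, (0 : ℝ) ≤ 1 / n := fun n => by positivity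
  have hval : ∀ p ∈ T.erase 2, ∀ i j : ℕ,
      (1 : ℝ) / (tt T i j p : ℕ) = 1 / M * ((2 * p) / (2 ^ i * p ^ j)) := by
    intro p hp i j
    have h1 : ((tt T i j p : ℕ) : ℝ) * (2 * p) = M * (2 ^ i * p ^ j) := by
      have := tt_mul h2T hp i j
      rw [hMdef]
      exact_mod_cast this
    have hpp : (0 : ℝ) < p := by
      exact_mod_cast (hT p (Finset.mem_erase.1 hp).2).pos
    have htp : (0 : ℝ) < ((tt T i j p : ℕ) : ℝ) := by exact_mod_cast tt_pos hT i j p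
    field_simp
    linarith
  refine (Finset.sum_le_sum_of_subset_of_nonneg (R_subset T) (fun t _ _ => hg t)).trans ?_
  have hU : ∀ s s' : Finset ℕ, ∑ t ∈ s ∪ s', (1 : ℝ) / t ≤ ∑ t ∈ s, (1 : ℝ) / t + ∑ t ∈ s', (1 : ℝ) / t := by
    intro s s'
    have := Finset.sum_union_inter (s₁ := s) (s₂ := s') (f := fun t : ℕ => (1 : ℝ) / t)
    have h2 : 0 ≤ ∑ t ∈ s ∩ s', (1 : ℝ) / t := Finset.sum_nonneg (fun t _ => hg t)
    linarith
  refine (hU _ _).trans ?_
  have hA : ∑ t ∈ ({tt T 1 1 0, tt T 3 1 0} : Finset ℕ), (1 : ℝ) / t ≤ 1 / M * (5 / 4) := by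
    have h1 : ∑ t ∈ ({tt T 1 1 0, tt T 3 1 0} : Finset ℕ), (1 : ℝ) / t ≤
        (1 : ℝ) / (tt T 1 1 0 : ℕ) + (1 : ℝ) / (tt T 3 1 0 : ℕ) := by
      have h2 : ({tt T 1 1 0, tt T 3 1 0} : Finset ℕ) = {tt T 1 1 0} ∪ {tt T 3 1 0} := rfl
      rw [h2]
      refine (hU _ _).trans ?_
      simp
    refine h1.trans ?_
    rw [← tt_one T 1 p0, ← tt_one T 3 p0, hval p0 hp0, hval p0 hp0]
    have hpp : (0 : ℝ) < p0 := by
      exact_mod_cast (hT p0 (Finset.mem_erase.1 hp0).2).pos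
    have e1 : (2 * (p0 : ℝ)) / (2 ^ 1 * (p0 : ℝ) ^ 1) = 1 := by field_simp
    have e2 : (2 * (p0 : ℝ)) / (2 ^ 3 * (p0 : ℝ) ^ 1) = 1 / 4 := by field_simp; norm_num
    rw [e1, e2]
    apply le_of_eq; ring
  have hB : ∑ t ∈ (T.erase 2).biUnion (fun p => Cset'.image (fun c => tt T c.1 c.2 p)), (1 : ℝ) / t
      ≤ 1 / M * (27 / 4 * ∑ p ∈ T.erase 2, (1 : ℝ) / (p : ℝ) ^ 2) := by
    refine (sum_biUnion_le' _ _ _ hg).trans ?_
    rw [Finset.mul_sum, Finset.mul_sum]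
    apply Finset.sum_le_sum
    intro p hp
    refine (sum_image_le' _ _ _ hg).trans ?_
    have hpp : (1 : ℝ) ≤ p := by
      exact_mod_cast (hT p (Finset.mem_erase.1 hp).2).one_lt.le
    have h1 : ∑ c ∈ Cset', (1 : ℝ) / (tt T c.1 c.2 p : ℕ) =
        ∑ c ∈ Cset', 1 / M * ((2 * p) / (2 ^ c.1 * p ^ c.2)) :=
      Finset.sum_congr rfl (fun c _ => hval p hp c.1 c.2)
    rw [h1, ← Finset.mul_sum]
    apply mul_le_mul_of_nonneg_left _ (by positivity)
    have h2 : ∑ c ∈ Cset', (2 * (p : ℝ)) / (2 ^ c.1 * p ^ c.2) =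
        27 / 8 * (1 / (p : ℝ) ^ 2) + 27 / 8 * (1 / (p : ℝ) ^ 3) := by
      simp only [Cset']
      rw [Finset.sum_insert (by decide), Finset.sum_insert (by decide),
        Finset.sum_insert (by decide), Finset.sum_insert (by decide),
        Finset.sum_insert (by decide), Finset.sum_insert (by decide),
        Finset.sum_insert (by decide), Finset.sum_singleton]
      field_simp
      ring
    rw [h2]
    have h3 : (1 : ℝ) / (p : ℝ) ^ 3 ≤ 1 / (p : ℝ) ^ 2 := by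
      apply one_div_le_one_div_of_le (by positivity)
      exact pow_le_pow_right₀ hpp (by norm_num)
    linarith
  have : 1 / M * (5 / 4 + 27 / 4 * ∑ p ∈ T.erase 2, (1 : ℝ) / (p : ℝ) ^ 2) =
      1 / M * (5 / 4) + 1 / M * (27 / 4 * ∑ p ∈ T.erase 2, (1 : ℝ) / (p : ℝ) ^ 2) := by ring
  rw [this]
  exact add_le_add hA hB

theorem Q_sum_eq {T : Finset ℕ} (hT : ∀ p ∈ T, Nat.Prime p) (h2T : 2 ∈ T) :
    ∑ t ∈ Qset T, (1 : ℝ) / t = (1 / ((∏ r ∈ T, r : ℕ) : ℝ)) *
      (1 / 2 * ∑ p ∈ T.erase 2, (1 : ℝ) / (p : ℝ)) := by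
  unfold Qset
  rw [Finset.sum_image]
  · rw [Finset.mul_sum, Finset.mul_sum]
    apply Finset.sum_congr rfl
    intro p hp
    have hM : (0 : ℝ) < ((∏ r ∈ T, r : ℕ) : ℝ) := by
      exact_mod_cast Finset.prod_pos (fun r hr => (hT r hr).pos)
    have h1 : ((tt T 2 2 p : ℕ) : ℝ) * (2 * p) = ((∏ r ∈ T, r : ℕ) : ℝ) * (2 ^ 2 * p ^ 2) := by
      have := tt_mul h2T hp 2 2
      exact_mod_cast this
    have hpp : (0 : ℝ) < p := by
      exact_mod_cast (hT p (Finset.mem_erase.1 hp).2).pos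
    have htp : (0 : ℝ) < ((tt T 2 2 p : ℕ) : ℝ) := by exact_mod_cast tt_pos hT 2 2 p
    set M : ℝ := ((∏ r ∈ T, r : ℕ) : ℝ) with hMdef
    have h2 : ((tt T 2 2 p : ℕ) : ℝ) = M * (2 * p) := by
      have h3 : ((tt T 2 2 p : ℕ) : ℝ) * (2 * p) = M * (2 * p) * (2 * p) := by
        rw [h1]; ring
      exact mul_right_cancel₀ (by positivity) h3
    rw [h2]
    field_simp
  · intro p hp p' hp' h
    by_contra hne
    have hp1 := Finset.mem_erase.1 hp
    have hp1' := Finset.mem_erase.1 hp'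
    have h1 := congrArg (fun n => n.factorization p) h
    simp only [tt_factorization hT, if_pos hp1.2] at h1
    simp [ex, hp1.1, hne] at h1

/-- There are enough primes. -/
theorem exists_T : ∃ T : Finset ℕ, (∀ p ∈ T, Nat.Prime p) ∧ 2 ∈ T ∧ 3 ∈ T ∧
    10 < ∑ p ∈ T.erase 2, (1 : ℝ) / (p : ℝ) ∧
    ∑ p ∈ T.erase 2, (1 : ℝ) / (p : ℝ) ^ 2 ≤ 1 / 2 := by
  classical
  have h := not_summable_one_div_on_primes
  rw [not_summable_iff_tendsto_nat_atTop_of_nonneg] at h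
  · obtain ⟨n, hn⟩ := ((tendsto_atTop.1 h 11).and (eventually_ge_atTop 4)).exists
    refine ⟨(Finset.range n).filter Nat.Prime, ?_, ?_, ?_, ?_, ?_⟩
    · intro p hp
      exact (Finset.mem_filter.1 hp).2
    · rw [Finset.mem_filter, Finset.mem_range]
      exact ⟨by omega, Nat.prime_two⟩
    · rw [Finset.mem_filter, Finset.mem_range]
      exact ⟨by omega, Nat.prime_three⟩
    · have h2 : 2 ∈ (Finset.range n).filter Nat.Prime := by
        rw [Finset.mem_filter, Finset.mem_range]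
        exact ⟨by omega, Nat.prime_two⟩
      have h3 : ∑ p ∈ (Finset.range n).filter Nat.Prime, (1 : ℝ) / (p : ℝ) =
          ∑ i ∈ Finset.range n, Set.indicator {p : ℕ | Nat.Prime p} (fun n : ℕ => (1 : ℝ) / n) i := by
        rw [Finset.sum_filter]
        apply Finset.sum_congr rfl
        intro i _
        rw [Set.indicator_apply]
        rfl
      have h4 := Finset.add_sum_erase _ (fun p : ℕ => (1 : ℝ) / (p : ℝ)) h2
      have h5 := hn.1
      rw [← h3, ← h4] at h5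
      norm_num at h5 ⊢
      linarith
    · have h6 := sum_sq_le 2 (by norm_num) n
      refine le_trans (Finset.sum_le_sum_of_subset_of_nonneg (t := Finset.Ioc 2 n) ?_
        (fun _ _ _ => by positivity)) ?_
      · intro p hp
        rw [Finset.mem_erase, Finset.mem_filter, Finset.mem_range] at hp
        have := hp.2.2.two_le
        rw [Finset.mem_Ioc]
        omega
      · simpa using h6
  · intro n
    apply Set.indicator_nonneg
    intro x _
    positivity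

/-- If `G` has density `δ`, some set without three-term geometric progressions has larger
density. -/
theorem main {δ : ℝ} (hG : HasDens G δ) : ∃ (B : Set ℕ) (d : ℝ), (∀ n ∈ B, 1 ≤ n) ∧
    (∀ a ∈ B, ∀ b ∈ B, ∀ c ∈ B, a < b → b < c → b ^ 2 ≠ a * c) ∧ HasDens B d ∧ δ < d := by
  obtain ⟨T, hT, h2T, h3T, hbig, hsmall⟩ := exists_T
  obtain ⟨κ, hκ, hκd⟩ := SF_dens_pos T hT
  refine ⟨S T, _, S_pos hT, S_free hT h2T, S_dens hT h2T hG hκd, ?_⟩
  have h3 : 3 ∈ T.erase 2 := Finset.mem_erase.2 ⟨by norm_num, h3T⟩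
  have hR := R_sum_le hT h2T h3
  have hQ := Q_sum_eq hT h2T
  have hM : (0 : ℝ) < ((∏ r ∈ T, r : ℕ) : ℝ) := by
    exact_mod_cast Finset.prod_pos (fun r hr => (hT r hr).pos)
  have e1 : ∑ t ∈ Rset T, κ / (t : ℝ) = κ * ∑ t ∈ Rset T, (1 : ℝ) / t := by
    rw [Finset.mul_sum]
    exact Finset.sum_congr rfl (fun t _ => by ring)
  have e2 : ∑ t ∈ Qset T, κ / (t : ℝ) = κ * ∑ t ∈ Qset T, (1 : ℝ) / t := by
    rw [Finset.mul_sum]
    exact Finset.sum_congr rfl (fun t _ => by ring)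
  rw [e1, e2]
  have h4 : ∑ t ∈ Rset T, (1 : ℝ) / t < ∑ t ∈ Qset T, (1 : ℝ) / t := by
    refine lt_of_le_of_lt hR ?_
    rw [hQ]
    apply mul_lt_mul_of_pos_left _ (by positivity)
    linarith
  have h5 : κ * ∑ t ∈ Rset T, (1 : ℝ) / t < κ * ∑ t ∈ Qset T, (1 : ℝ) / t :=
    mul_lt_mul_of_pos_left h4 hκ
  linarith

end Pool.Agent.LibGP
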