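import Pool.Agent.LibGP.Card

/-! Cofinal sequences of cardinals below a singular cardinal. -/

namespace Pool.Agent.LibGP

open Cardinal Set Ordinal Order

universe u

theorem aleph0_le_cof {α : Cardinal.{u}} (hα : ℵ₀ < α) : ℵ₀ ≤ α.ord.cof :=
  Ordinal.aleph0_le_cof.2 (isSuccLimit_ord hα.le)

/-- The sequences `β` and `δ` used throughout: `β` is nondecreasing with supremum `α`, and `δ ν` is
the supremum of the `β μ` for `μ < ν`. -/
theorem exists_scale {α : Cardinal.{u}} (hα : ℵ₀ < α) (hs : α.ord.cof < α) :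
    ∃ β δ : Ordinal.{u} → Cardinal.{u}, Monotone β ∧ Monotone δ ∧
      (∀ ν, succ α.ord.cof ≤ δ ν) ∧ (∀ ν, δ ν ≤ β ν) ∧ (∀ ν < α.ord.cof.ord, β ν < α) ∧
      (∀ θ < α, ∃ ν < α.ord.cof.ord, θ ≤ δ ν) ∧
      (∀ ν, ν ≠ 0 → ∀ c < δ ν, ∃ μ < ν, c < β μ) := by
  classical
  set κ := α.ord.cof with hκ
  have hκ0 : ℵ₀ ≤ κ := aleph0_le_cof hα
  obtain ⟨f, hf⟩ := exists_isFundamentalSeq (o := α.ord) (a := κ.ord) rfl
  let β : Ordinal.{u} → Cardinal.{u} := fun ν =>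
    if h : ν < κ.ord then max (succ κ) (f ⟨ν, h⟩).1.card else α
  have hsκ : succ κ < α := succ_lt_of_sing hα hs hs
  have hβle : ∀ ν, β ν ≤ α := by
    intro ν
    simp only [β]
    split_ifs with h
    · exact max_le hsκ.le (lt_ord.1 (f ⟨ν, h⟩).2).le
    · exact le_rfl
  have hβlt : ∀ ν < κ.ord, β ν < α := by
    intro ν h
    simp only [β, dif_pos h]
    exact max_lt hsκ (lt_ord.1 (f ⟨ν, h⟩).2)
  have hβmono : Monotone β := by
    intro ν μ hνμ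
    by_cases h : μ < κ.ord
    · have h' : ν < κ.ord := hνμ.trans_lt h
      simp only [β, dif_pos h, dif_pos h']
      refine max_le_max le_rfl (card_le_card ?_)
      exact hf.strictMono.monotone (a := ⟨ν, h'⟩) (b := ⟨μ, h⟩) hνμ
    · have : β μ = α := by simp only [β, dif_neg h]
      rw [this]
      exact hβle ν
  have hβκ : ∀ ν, succ κ ≤ β ν := by
    intro ν
    simp only [β]
    split_ifs with h
    · exact le_max_left _ _
    · exact hsκ.le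
  have hβcof : ∀ θ < α, ∃ ν < κ.ord, θ ≤ β ν := by
    intro θ hθ
    obtain ⟨_, ⟨ν, rfl⟩, hν⟩ := hf.isCofinal_range ⟨θ.ord, ord_lt_ord.2 hθ⟩
    refine ⟨ν.1, ν.2, ?_⟩
    have h1 : ν.1 < κ.ord := ν.2
    simp only [β, dif_pos h1]
    have h2 : θ.ord ≤ (f ν).1 := hν
    have h3 := card_le_card h2
    rw [card_ord] at h3
    exact h3.trans (le_max_right _ _)
  let δ : Ordinal.{u} → Cardinal.{u} := fun ν => max (succ κ) (⨆ μ : Iio ν, β μ)
  have hbdd : ∀ ν : Ordinal.{u}, BddAbove (range fun μ : Iio ν => β μ) := by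
    intro ν
    exact ⟨α, by rintro _ ⟨μ, rfl⟩; exact hβle _⟩
  have hδβ : ∀ ν, δ ν ≤ β ν := by
    intro ν
    refine max_le (hβκ ν) (ciSup_le' ?_)
    intro μ
    exact hβmono (le_of_lt μ.2)
  refine ⟨β, δ, hβmono, ?_, fun ν => le_max_left _ _, hδβ, hβlt, ?_, ?_⟩
  · intro ν μ hνμ
    refine max_le_max le_rfl (ciSup_le' ?_)
    intro x
    exact le_ciSup (hbdd μ) ⟨x.1, lt_of_lt_of_le x.2 hνμ⟩
  · intro θ hθ
    obtain ⟨ν, hν, hνθ⟩ := hβcof θ hθ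
    have hlim : IsSuccLimit κ.ord := isSuccLimit_ord hκ0
    refine ⟨succ ν, hlim.succ_lt hν, hνθ.trans ?_⟩
    exact (le_ciSup (hbdd (succ ν)) ⟨ν, lt_succ ν⟩).trans (le_max_right _ _)
  · intro ν hν c hc
    have h0 : (0 : Ordinal) < ν := pos_iff_ne_zero.2 hν
    rcases lt_max_iff.1 hc with h | h
    · exact ⟨0, h0, h.trans_le (hβκ 0)⟩
    · have : Nonempty (Iio ν) := ⟨⟨0, h0⟩⟩
      obtain ⟨μ, hμ⟩ := (lt_ciSup_iff (hbdd ν)).1 h
      exact ⟨μ.1, μ.2, hμ⟩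

end Pool.Agent.LibGP
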