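import Pool.Agent.LibGP.Adr
import Pool.Agent.LibGP.Top

set_option autoImplicit false

namespace Pool.Agent.LibGP.SingularPointsOld

open Cardinal Set Order Topology
open Pool.Agent.LibGP

universe u

/-- The space `U(A)` of uniform ultrafilters on `A`, with the subspace topology inherited from the
space of all ultrafilters on `A`. -/
abbrev Unif (A : Type u) : Type u := {q : Ultrafilter A // ∀ s ∈ q, #s = #A}

/-- `F` is an almost disjoint family of subsets of `A`. -/
def AlmostDisjointFamily {A : Type u} (F : Set (Set A)) : Prop :=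
  (∀ s ∈ F, #s = #A) ∧ F.Pairwise (fun s t => #(s ∩ t : Set A) < #A)

/-- `p` is a `γ`-point of `U(A)`: there are `γ` pairwise disjoint open subsets of `U(A)`, each of
which has `p` in its boundary. -/
def IsGammaPoint {A : Type u} (γ : Cardinal.{u}) (p : Unif A) : Prop :=
  ∃ 𝒪 : Set (Set (Unif A)), #𝒪 = γ ∧ 𝒪.PairwiseDisjoint id ∧ ∀ O ∈ 𝒪, IsOpen O ∧ p ∈ frontier O

/-- The character of `p` in `U(A)` is at most `c`: some neighbourhood base at `p` has at most `c`
members. -/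
def CharacterLE {A : Type u} (p : Unif A) (c : Cardinal.{u}) : Prop :=
  ∃ 𝒱 : Set (Set (Unif A)), #𝒱 ≤ c ∧ (∀ V ∈ 𝒱, V ∈ 𝓝 p) ∧ ∀ W ∈ 𝓝 p, ∃ V ∈ 𝒱, V ⊆ W

/-- Points of character at most `α⁺`. -/
theorem point_of_character {A : Type u} (hA : ℵ₀ < #A) (hs : (#A).ord.cof < #A) (p : Unif A)
    (hp : CharacterLE p (succ #A)) (F : Set (Set A)) (hF : AlmostDisjointFamily F) :
    IsGammaPoint #F p := by
  obtain ⟨𝒱, h𝒱, h𝒱p, h𝒱b⟩ := hp
  choose U hU hUV using fun V : 𝒱 => exists_bas (h𝒱p V.1 V.2)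
  obtain ⟨B, hB1, hB2, hB3⟩ := adr hA hs p.1 p.2 h𝒱 U hU
  refine open_of_refinement hA.le p U B hB1 hB2 hB3 ?_ F hF.1 hF.2
  intro s hsp
  obtain ⟨V, hV, hVs⟩ := h𝒱b (bas s) ((isOpen_bas s).mem_nhds hsp)
  refine ⟨⟨V, hV⟩, lt_of_le_of_ne (mk_set_le _) ?_⟩
  intro hcard
  obtain ⟨q, hq, hqs⟩ := exists_uniform hA.le _ hcard
  have h1 : (⟨q, hq⟩ : Unif A) ∈ bas (U ⟨V, hV⟩) := Filter.mem_of_superset hqs diff_subset
  have h2 : s ∈ q := hVs (hUV ⟨V, hV⟩ h1)
  have h3 : s ∩ (U ⟨V, hV⟩ \ s) ∈ q := Filter.inter_mem h2 hqs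
  have h4 : s ∩ (U ⟨V, hV⟩ \ s) = ∅ := by
    ext x
    simp only [mem_inter_iff, mem_diff, mem_empty_iff_false, iff_false]
    tauto
  rw [h4] at h3
  exact q.empty_notMem h3

/-- Every uniform ultrafilter has character at most `2 ^ α`. -/
theorem character_le {A : Type u} (p : Unif A) : CharacterLE p (2 ^ #A) := by
  refine ⟨bas '' {s | s ∈ p.1}, ?_, ?_, ?_⟩
  · refine mk_image_le.trans ((mk_set_le _).trans ?_)
    rw [mk_set]
  · rintro _ ⟨s, hs, rfl⟩
    exact (isOpen_bas s).mem_nhds hs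
  · intro W hW
    obtain ⟨s, hs, hsW⟩ := exists_bas hW
    exact ⟨bas s, ⟨s, hs, rfl⟩, hsW⟩

/-- Every family of at most `α⁺` members of a uniform ultrafilter on a set of singular cardinality
`α` has an almost disjoint refinement; a point of `U(α)` of character at most `α⁺` is a `γ`-point
for every `γ` for which there is an almost disjoint family of size `γ` on `α`; and if
`2 ^ α = α⁺` then every point of `U(α)` is a `γ`-point for every `γ ≤ 2 ^ α`. -/
theorem result :
    ∀ (A : Type u), ℵ₀ < #A → (#A).ord.cof < #A →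
      (∀ p : Unif A, ∀ (I : Type u) (U : I → Set A), #I ≤ succ #A → (∀ i, U i ∈ p.1) →
        ∃ B : I → Set A, (∀ i, B i ⊆ U i) ∧ (∀ i, #(B i) = #A) ∧
          ∀ i j, i ≠ j → #(B i ∩ B j : Set A) < #A) ∧
      (∀ p : Unif A, CharacterLE p (succ #A) →
        ∀ F : Set (Set A), AlmostDisjointFamily F → IsGammaPoint #F p) ∧
      (2 ^ #A = succ #A → ∀ p : Unif A, ∀ γ ≤ 2 ^ #A, IsGammaPoint γ p) := by
  intro A hA hs
  refine ⟨fun p I U hI hU => adr hA hs p.1 p.2 hI U hU, fun p hp F hF =>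
    point_of_character hA hs p hp F hF, ?_⟩
  intro h2 p γ hγ
  have hchar : CharacterLE p (succ #A) := by
    rw [← h2]
    exact character_le p
  -- an almost disjoint family of size `γ`
  obtain ⟨I, rfl⟩ : ∃ I : Type u, #I = γ := ⟨γ.out, mk_out γ⟩
  obtain ⟨B, _, hB2, hB3⟩ := adr hA hs p.1 p.2 (I := I) (hγ.trans h2.le) (fun _ => univ)
    (fun _ => Filter.univ_mem)
  have hinj : Function.Injective B := by
    intro i j hij
    by_contra hne
    have := hB3 i j hne
    rw [← hij, inter_self, hB2] at this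
    exact lt_irrefl _ this
  have hF : AlmostDisjointFamily (range B) := by
    refine ⟨?_, ?_⟩
    · rintro _ ⟨i, rfl⟩
      exact hB2 i
    · rintro _ ⟨i, rfl⟩ _ ⟨j, rfl⟩ hij
      exact hB3 i j (fun h => hij (congrArg B h))
  have := point_of_character hA hs p hchar (range B) hF
  rwa [mk_range_eq B hinj] at this

end Pool.Agent.LibGP.SingularPointsOld
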