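import Pool.Agent.LibGP.Scale

/-! The dichotomy for a uniform ultrafilter on a set of singular cardinality. -/

namespace Pool.Agent.LibGP

open Cardinal Set Ordinal Order

universe u

variable {A : Type u}

/-- One step down: a function with thin fibres is replaced by a smaller one. -/
theorem step_exists (hA : ℵ₀ < #A) {β δ : Ordinal.{u} → Cardinal.{u}}
    (hβm : Monotone β) (hδm : Monotone δ) (hδκ : ∀ ν, succ (#A).ord.cof ≤ δ ν)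
    (hδβ : ∀ ν, δ ν ≤ β ν) (hβ : ∀ ν < (#A).ord.cof.ord, β ν < #A)
    (hcof : ∀ θ < #A, ∃ ν < (#A).ord.cof.ord, θ ≤ δ ν)
    (hsup : ∀ ν, ν ≠ 0 → ∀ c < δ ν, ∃ μ < ν, c < β μ)
    (p : Ultrafilter A) (hp : ∀ s ∈ p, #s = #A)
    (g : A → Ordinal.{u}) (hg : ∀ x, g x < (#A).ord.cof.ord)
    (hgb : ∀ ν < (#A).ord.cof.ord, #{x | g x ≤ ν} ≤ β ν)
    (hneg : ∃ U ∈ p, ∃ θ < #A, ∀ ν < (#A).ord.cof.ord, θ ≤ δ ν →
      #(U ∩ {x | g x = ν} : Set A) ≤ δ ν) :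
    ∃ g' : A → Ordinal.{u}, (∀ x, g' x ≤ g x) ∧
      (∀ ν < (#A).ord.cof.ord, #{x | g' x ≤ ν} ≤ β ν) ∧ {x | g' x < g x} ∈ p := by
  classical
  obtain ⟨U, hUp, θ, hθ, hU⟩ := hneg
  have hκ0 : ℵ₀ ≤ (#A).ord.cof := aleph0_le_cof hA
  have hδ0 : ∀ ν, ℵ₀ ≤ δ ν := fun ν => hκ0.trans ((le_succ _).trans (hδκ ν))
  have hrank : ∀ ν : Ordinal.{u}, ∃ ρ : A → Cardinal.{u},
      ν < (#A).ord.cof.ord → θ ≤ δ ν → (∀ x ∈ U ∩ {x | g x = ν}, ρ x < δ ν) ∧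
        ∀ c : Cardinal.{u}, #{x | x ∈ U ∩ {x | g x = ν} ∧ ρ x < c} ≤ c := by
    intro ν
    by_cases h : ν < (#A).ord.cof.ord ∧ θ ≤ δ ν
    · obtain ⟨ρ, h1, h2⟩ := exists_rank_set (U ∩ {x | g x = ν}) (hU ν h.1 h.2)
      exact ⟨ρ, fun _ _ => ⟨h1, h2⟩⟩
    · exact ⟨fun _ => 0, fun h1 h2 => absurd ⟨h1, h2⟩ h⟩
  choose ρ hρ using hrank
  let W : Set A := {x | x ∈ U ∧ θ ≤ δ (g x) ∧ g x ≠ 0}
  let h : A → Ordinal.{u} := fun x => sInf {μ | ρ (g x) x < β μ}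
  have hW : ∀ x ∈ W, ∃ μ < g x, ρ (g x) x < β μ := by
    rintro x ⟨hxU, hxθ, hx0⟩
    exact hsup (g x) hx0 _ ((hρ (g x) (hg x) hxθ).1 x ⟨hxU, rfl⟩)
  have hh1 : ∀ x ∈ W, h x < g x := by
    intro x hx
    obtain ⟨μ, hμ, hμ'⟩ := hW x hx
    exact lt_of_le_of_lt (csInf_le' hμ') hμ
  have hh2 : ∀ x ∈ W, ρ (g x) x < β (h x) := by
    intro x hx
    obtain ⟨μ, hμ, hμ'⟩ := hW x hx
    exact csInf_mem (s := {μ | ρ (g x) x < β μ}) ⟨μ, hμ'⟩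
  refine ⟨fun x => if x ∈ W then h x else g x, ?_, ?_, ?_⟩
  · intro x
    dsimp only
    split_ifs with hx
    · exact (hh1 x hx).le
    · exact le_rfl
  · intro ν hν
    have hβ0 : ℵ₀ ≤ β ν := (hδ0 ν).trans (hδβ ν)
    have hsub : {x | (if x ∈ W then h x else g x) ≤ ν} ⊆ {x | g x ≤ ν} ∪
        ⋃ τ < (#A).ord.cof.ord, (if θ ≤ δ τ then
          {x | x ∈ U ∩ {x | g x = τ} ∧ ρ τ x < β ν} else ∅) := by
      intro x hx
      simp only [mem_setOf_eq] at hx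
      by_cases hxW : x ∈ W
      · right
        rw [if_pos hxW] at hx
        simp only [mem_iUnion]
        refine ⟨g x, hg x, ?_⟩
        rw [if_pos hxW.2.1]
        exact ⟨⟨hxW.1, rfl⟩, (hh2 x hxW).trans_le (hβm hx)⟩
      · left
        rwa [if_neg hxW] at hx
    refine (mk_le_mk_of_subset hsub).trans ((mk_union_le _ _).trans ?_)
    refine (add_le_add (hgb ν hν) (mk_biUnion_le_of_le (c := β ν) ?_ hβ0 _ ?_)).trans
      (add_eq_self hβ0).le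
    · rw [card_ord]
      exact ((le_succ _).trans (hδκ ν)).trans (hδβ ν)
    · intro τ hτ
      split_ifs with hτθ
      · exact (hρ τ hτ hτθ).2 (β ν)
      · simp
  · obtain ⟨ν₀, hν₀, hν₀'⟩ := hcof θ hθ
    have hsmall : {x | g x ≤ ν₀} ∉ p := by
      intro hmem
      have := (hgb ν₀ hν₀).trans_lt (hβ ν₀ hν₀)
      rw [hp _ hmem] at this
      exact lt_irrefl _ this
    have hcompl : {x | g x ≤ ν₀}ᶜ ∈ p := Ultrafilter.compl_mem_iff_notMem.2 hsmall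
    refine Filter.mem_of_superset (Filter.inter_mem hUp hcompl) ?_
    rintro x ⟨hxU, hxν⟩
    simp only [mem_compl_iff, mem_setOf_eq, not_le] at hxν
    have hxW : x ∈ W := by
      refine ⟨hxU, hν₀'.trans (hδm hxν.le), ?_⟩
      intro h0
      rw [h0] at hxν
      exact absurd hxν not_lt_zero
    simp only [mem_setOf_eq, if_pos hxW]
    exact hh1 x hxW

end Pool.Agent.LibGP
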