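import Pool.Agent.LibGP.Card

/-! The refinement lemma with thin sets. -/

namespace Pool.Agent.LibGP

open Cardinal Set Ordinal Order

universe u

/-- Almost disjoint refinement by sets that are thin with respect to a disjoint family. -/
theorem thin_refine {A : Type u} (hA : ℵ₀ < #A) (hlim : ∀ c < #A, succ c < #A)
    {I : Type u} (hI : #I ≤ succ #A) (o : Ordinal.{u}) (ho : o.card < #A)
    (δ : Ordinal.{u} → Cardinal.{u}) (hδ0 : ∀ ν < o, ℵ₀ ≤ δ ν)
    (D : Ordinal.{u} → Set A) (hD : ∀ ν < o, ∀ μ < o, ν ≠ μ → Disjoint (D ν) (D μ))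
    (U : I → Set A)
    (H : ∀ i, ∀ θ < #A, ∃ ν < o, θ ≤ δ ν ∧ δ ν < #(U i ∩ D ν : Set A)) :
    ∃ B : I → Set A, (∀ i, B i ⊆ U i) ∧ (∀ i, B i ⊆ ⋃ ν < o, D ν) ∧
      (∀ i, ∀ ν < o, #(B i ∩ D ν : Set A) ≤ δ ν) ∧ (∀ i, #(B i) = #A) ∧
      ∀ i j, i ≠ j → #(B i ∩ B j : Set A) < #A := by
  classical
  obtain ⟨r, hr, hor⟩ := exists_ord_eq I
  have hseg : ∀ i : I, #{j // r j i} ≤ #A := by
    intro i
    have h1 := card_typein_lt (r := r) i hor
    rw [card_typein] at h1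
    exact Order.lt_succ_iff.1 (h1.trans_le hI)
  choose ρ hρ1 hρ2 using fun i => exists_rank (hseg i)
  have wf : WellFounded r := IsWellFounded.wf
  let G : ∀ i : I, (∀ j, r j i → Ordinal.{u} → Set A) → Ordinal.{u} → Set A := fun i f ν =>
    if h : ∃ t : Set A, t ⊆ (U i ∩ D ν) \
        (⋃ x : {x : {j // r j i} // ρ i x < δ ν}, f x.1.1 x.1.2 ν) ∧ #t = δ ν
      then h.choose else ∅
  let b : I → Ordinal.{u} → Set A := wf.fix G
  let R : I → Ordinal.{u} → Set A := fun i ν =>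
    ⋃ x : {x : {j // r j i} // ρ i x < δ ν}, b x.1.1 ν
  have hb : ∀ i ν, b i ν = if h : ∃ t : Set A, t ⊆ (U i ∩ D ν) \ R i ν ∧ #t = δ ν
      then h.choose else ∅ := by
    intro i ν
    have := congrFun (wf.fix_eq G i) ν
    exact this
  have hb1 : ∀ i ν, b i ν ⊆ (U i ∩ D ν) \ R i ν := by
    intro i ν
    rw [hb]
    split_ifs with h
    · exact h.choose_spec.1
    · exact empty_subset _
  have hb2 : ∀ i ν, #(b i ν) ≤ δ ν := by
    intro i ν
    rw [hb]
    split_ifs with h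
    · exact h.choose_spec.2.le
    · simp
  have hR : ∀ i, ∀ ν < o, #(R i ν) ≤ δ ν := by
    intro i ν hν
    refine (mk_iUnion_le _).trans ?_
    have h1 : #{x : {j // r j i} // ρ i x < δ ν} ≤ δ ν := hρ2 i (δ ν)
    have h2 : (⨆ x : {x : {j // r j i} // ρ i x < δ ν}, #(b x.1.1 ν)) ≤ δ ν :=
      ciSup_le' fun x => hb2 _ _
    exact (mul_le_mul' h1 h2).trans (mul_eq_self (hδ0 ν hν)).le
  have hb3 : ∀ i, ∀ ν < o, δ ν < #(U i ∩ D ν : Set A) → #(b i ν) = δ ν := by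
    intro i ν hν h
    have hlarge : δ ν < #((U i ∩ D ν) \ R i ν : Set A) := by
      by_contra hcon
      rw [not_lt] at hcon
      have h1 : #(U i ∩ D ν : Set A) ≤ #(((U i ∩ D ν) \ R i ν) ∪ R i ν : Set A) :=
        mk_le_mk_of_subset (by intro x hx; by_cases hxR : x ∈ R i ν <;> simp [hx, hxR])
      have h2 := h1.trans ((mk_union_le _ _).trans (add_le_add hcon (hR i ν hν)))
      rw [add_eq_self (hδ0 ν hν)] at h2
      exact absurd h (not_lt.2 h2)
    obtain ⟨t, ht1, ht2⟩ := le_mk_iff_exists_subset.1 hlarge.le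
    have hex : ∃ t : Set A, t ⊆ (U i ∩ D ν) \ R i ν ∧ #t = δ ν := ⟨t, ht1, ht2⟩
    rw [hb, dif_pos hex]
    exact hex.choose_spec.2
  have hBD : ∀ i, ∀ ν < o, (⋃ μ < o, b i μ) ∩ D ν ⊆ b i ν := by
    rintro i ν hν x ⟨hx, hxD⟩
    simp only [mem_iUnion] at hx
    obtain ⟨μ, hμ, hxμ⟩ := hx
    by_cases h : μ = ν
    · rwa [h] at hxμ
    · exact absurd hxD (Set.disjoint_left.1 (hD μ hμ ν hν h) (hb1 i μ hxμ).1.2)
  refine ⟨fun i => ⋃ ν < o, b i ν, ?_, ?_, ?_, ?_, ?_⟩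
  · intro i x hx
    simp only [mem_iUnion] at hx
    obtain ⟨μ, hμ, hxμ⟩ := hx
    exact (hb1 i μ hxμ).1.1
  · intro i x hx
    simp only [mem_iUnion] at hx ⊢
    obtain ⟨μ, hμ, hxμ⟩ := hx
    exact ⟨μ, hμ, (hb1 i μ hxμ).1.2⟩
  · intro i ν hν
    exact (mk_le_mk_of_subset (hBD i ν hν)).trans (hb2 i ν)
  · intro i
    refine le_antisymm (mk_set_le _) ?_
    by_contra hcon
    rw [not_le] at hcon
    obtain ⟨ν, hν, h1, h2⟩ := H i _ (hlim _ hcon)
    have h3 : #(b i ν) ≤ #(⋃ ν < o, b i ν : Set A) :=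
      mk_le_mk_of_subset (subset_iUnion₂_of_subset ν hν subset_rfl)
    rw [hb3 i ν hν h2] at h3
    exact absurd (h1.trans h3) (not_le.2 (lt_succ _))
  · have key : ∀ i j, r j i → #((⋃ ν < o, b i ν) ∩ (⋃ ν < o, b j ν) : Set A) < #A := by
      intro i j hji
      set β := ρ i ⟨j, hji⟩ with hβ
      have hβA : β < #A := hρ1 i _
      have hsub : ((⋃ ν < o, b i ν) ∩ (⋃ ν < o, b j ν) : Set A) ⊆
          ⋃ ν < o, (if δ ν ≤ β then b i ν else ∅) := by
        rintro x ⟨hx1, hx2⟩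
        simp only [mem_iUnion] at hx1 hx2 ⊢
        obtain ⟨ν, hν, hxν⟩ := hx1
        obtain ⟨μ, hμ, hxμ⟩ := hx2
        refine ⟨ν, hν, ?_⟩
        have hνμ : ν = μ := by
          by_contra hne
          exact Set.disjoint_left.1 (hD ν hν μ hμ hne) (hb1 i ν hxν).1.2 (hb1 j μ hxμ).1.2
        subst hνμ
        split_ifs with hδβ
        · exact hxν
        · exfalso
          rw [not_le] at hδβ
          refine (hb1 i ν hxν).2 ?_
          exact mem_iUnion.2 ⟨⟨⟨j, hji⟩, hδβ⟩, hxμ⟩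
      refine (mk_le_mk_of_subset hsub).trans_lt ?_
      refine lt_of_le_of_lt (mk_biUnion_le_of_le (c := max (max ℵ₀ o.card) β) ?_ ?_ _ ?_)
        (max_lt (max_lt hA ho) hβA)
      · exact (le_max_right _ _).trans (le_max_left _ _)
      · exact (le_max_left _ _).trans (le_max_left _ _)
      · intro ν hν
        split_ifs with h
        · exact (hb2 i ν).trans (h.trans (le_max_right _ _))
        · simp
    intro i j hij
    rcases trichotomous_of r i j with h | h | h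
    · rw [inter_comm]
      exact key j i h
    · exact absurd h hij
    · exact key i j h

end Pool.Agent.LibGP
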