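import Pool.Agent.LibGP.Thin
import Pool.Agent.LibGP.Scale

/-! Almost disjoint refinements from a function that is unbounded in `(cof α)⁺` modulo `p`. -/

namespace Pool.Agent.LibGP

open Cardinal Set Ordinal Order

universe u

theorem iSup_lt_succ_ord {κ : Cardinal.{u}} (hκ : ℵ₀ ≤ κ) {o : Ordinal.{u}} (ho : o.card ≤ κ)
    (F : Ordinal.{u} → Ordinal.{u}) (hF : ∀ j < o, F j < (succ κ).ord) :
    (⨆ j : Iio o, F j) < (succ κ).ord := by
  apply lift_iSup_lt_of_lt_cof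
  · rw [Cardinal.mk_Iio_ordinal, ← lift_cof, (isRegular_succ hκ).cof_ord]
    have h : Cardinal.lift.{u + 1} o.card < Cardinal.lift.{u + 1} (succ κ) :=
      Cardinal.lift_lt.2 (lt_succ_iff.2 ho)
    simpa using h
  · intro i
    exact hF _ i.2

variable {A : Type u}

theorem exists_cap (hA : ℵ₀ < #A)
    {β δ : Ordinal.{u} → Cardinal.{u}}
    (hδκ : ∀ ν, succ (#A).ord.cof ≤ δ ν)
    (hδβ : ∀ ν, δ ν ≤ β ν) (hβ : ∀ ν < (#A).ord.cof.ord, β ν < #A)
    (hcof : ∀ θ < #A, ∃ ν < (#A).ord.cof.ord, θ ≤ δ ν)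
    (hlim : ∀ c < #A, succ c < #A)
    (f : A → Ordinal.{u}) (hf : ∀ x, f x < (succ (#A).ord.cof).ord)
    (V : Set A) (hV : #V = #A) :
    ∃ i < (succ (#A).ord.cof).ord, #(V ∩ {x | f x < i} : Set A) = #A := by
  classical
  set κ := (#A).ord.cof with hκ
  have hκ0 : ℵ₀ ≤ κ := aleph0_le_cof hA
  have hLlim : IsSuccLimit (succ κ).ord := isSuccLimit_ord (hκ0.trans (le_succ _))
  by_contra hcon
  push Not at hcon
  have hlt : ∀ i < (succ κ).ord, #(V ∩ {x | f x < i} : Set A) < #A := fun i hi =>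
    lt_of_le_of_ne (mk_set_le _) (hcon i hi)
  -- a common bound
  have hbound : ∃ ν < κ.ord, ∀ i < (succ κ).ord, #(V ∩ {x | f x < i} : Set A) ≤ δ ν := by
    by_contra hno
    push Not at hno
    have hch : ∀ ν, ∃ i, ν < κ.ord → i < (succ κ).ord ∧
        δ ν < #(V ∩ {x | f x < i} : Set A) := by
      intro ν
      by_cases hν : ν < κ.ord
      · obtain ⟨i, hi, hi'⟩ := hno ν hν
        exact ⟨i, fun _ => ⟨hi, hi'⟩⟩
      · exact ⟨0, fun h => absurd h hν⟩
    choose I hI using hch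
    have hs := iSup_lt_succ_ord hκ0 (o := κ.ord) (by rw [card_ord]) I (fun j hj => (hI j hj).1)
    set s := ⨆ j : Iio κ.ord, I j with hsdef
    obtain ⟨ν, hν, hν'⟩ := hcof _ (hlim _ (hlt s hs))
    have h1 : I ν ≤ s := by
      have := le_ciSup (f := fun j : Iio κ.ord => I j) bddAbove_of_small ⟨ν, hν⟩
      exact this
    have h2 : #(V ∩ {x | f x < I ν} : Set A) ≤ #(V ∩ {x | f x < s} : Set A) :=
      mk_le_mk_of_subset (inter_subset_inter_right _ fun x hx => lt_of_lt_of_le hx h1)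
    have h3 := (hI ν hν).2.trans_le h2
    exact absurd ((lt_succ _).trans_le hν') (not_lt.2 h3.le)
  obtain ⟨ν, hν, hb⟩ := hbound
  have hsub : V ⊆ ⋃ j < (succ κ).ord, (V ∩ {x | f x < succ j}) := by
    intro x hx
    simp only [mem_iUnion]
    exact ⟨f x, hf x, hx, lt_succ (f x)⟩
  have h1 : #V ≤ δ ν := by
    refine (mk_le_mk_of_subset hsub).trans (mk_biUnion_le_of_le (c := δ ν) ?_ ?_ _ ?_)
    · rw [card_ord]
      exact hδκ ν
    · exact (hκ0.trans (le_succ _)).trans (hδκ ν)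
    · intro j hj
      exact hb _ (hLlim.succ_lt hj)
  exact absurd (h1.trans (hδβ ν)) (by rw [hV]; exact not_le.2 (hβ ν hν))

/-- For each `U` a level `s` of cofinality `cof α` at which `U` is large above every lower level. -/
theorem exists_level (hA : ℵ₀ < #A)
    {β δ : Ordinal.{u} → Cardinal.{u}}
    (hδκ : ∀ ν, succ (#A).ord.cof ≤ δ ν)
    (hδβ : ∀ ν, δ ν ≤ β ν) (hβ : ∀ ν < (#A).ord.cof.ord, β ν < #A)
    (hcof : ∀ θ < #A, ∃ ν < (#A).ord.cof.ord, θ ≤ δ ν)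
    (hlim : ∀ c < #A, succ c < #A)
    (p : Ultrafilter A) (hp : ∀ s ∈ p, #s = #A)
    (f : A → Ordinal.{u}) (hf : ∀ x, f x < (succ (#A).ord.cof).ord)
    (hfp : ∀ i < (succ (#A).ord.cof).ord, {x | i ≤ f x} ∈ p)
    (U : Set A) (hU : U ∈ p) :
    ∃ s : Ordinal.{u}, (∃ e : Ordinal.{u} → Ordinal.{u},
      (∀ μ ν, μ < ν → ν < (#A).ord.cof.ord → e μ < e ν) ∧
      (∀ ν < (#A).ord.cof.ord, e ν < s) ∧
      (∀ i < s, ∃ ν < (#A).ord.cof.ord, i ≤ e ν)) ∧
      ∀ i < s, ∃ j < s, #(U ∩ {x | i ≤ f x ∧ f x < j} : Set A) = #A := by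
  classical
  set κ := (#A).ord.cof with hκ
  have hκ0 : ℵ₀ ≤ κ := aleph0_le_cof hA
  have hκlim : IsSuccLimit κ.ord := isSuccLimit_ord hκ0
  have hex : ∀ i, ∃ j, i < (succ κ).ord →
      j < (succ κ).ord ∧ #(U ∩ {x | i ≤ f x ∧ f x < j} : Set A) = #A := by
    intro i
    by_cases hi : i < (succ κ).ord
    · obtain ⟨j, hj, hj'⟩ := exists_cap hA hδκ hδβ hβ hcof hlim f hf (U ∩ {x | i ≤ f x})
        (hp _ (Filter.inter_mem hU (hfp i hi)))
      refine ⟨j, fun _ => ⟨hj, ?_⟩⟩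
      rw [← hj']
      congr 2
      ext x
      simp only [mem_inter_iff, and_assoc]
      rfl
    · exact ⟨0, fun h => absurd h hi⟩
  choose h hh using hex
  have hlt : ∀ i < (succ κ).ord, i < h i := by
    intro i hi
    by_contra hcon
    rw [not_lt] at hcon
    have h1 := (hh i hi).2
    have h2 : (U ∩ {x | i ≤ f x ∧ f x < h i} : Set A) = ∅ := by
      apply eq_empty_of_forall_notMem
      rintro x ⟨_, hx1, hx2⟩
      exact absurd (hx2.trans_le hcon) (not_lt.2 hx1)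
    rw [h2, mk_eq_zero] at h1
    rw [← h1] at hA
    exact absurd hA not_lt_zero
  have wf : WellFounded (α := Ordinal.{u}) (· < ·) := wellFounded_lt
  let G : ∀ i : Ordinal.{u}, (∀ j, j < i → Ordinal.{u}) → Ordinal.{u} := fun i F =>
    ⨆ j : Iio i, h (F j.1 j.2)
  let e : Ordinal.{u} → Ordinal.{u} := wf.fix G
  have he : ∀ i, e i = ⨆ j : Iio i, h (e j.1) := fun i => wf.fix_eq G i
  have hle : ∀ i j, j < i → h (e j) ≤ e i := by
    intro i j hj
    rw [he i]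
    exact le_ciSup (f := fun j : Iio i => h (e j.1)) bddAbove_of_small ⟨j, hj⟩
  have hltL : ∀ i, i ≤ κ.ord → e i < (succ κ).ord := by
    intro i
    induction i using WellFoundedLT.induction with
    | ind i ih =>
      intro hi
      rw [he i]
      refine iSup_lt_succ_ord hκ0 ?_ (fun j => h (e j)) ?_
      · have := card_le_card hi
        rwa [card_ord] at this
      · intro j hj
        exact (hh _ (ih j hj (hj.le.trans hi))).1
  have hstrict : ∀ μ ν, μ < ν → μ ≤ κ.ord → e μ < e ν := fun μ ν h1 h2 =>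
    (hlt _ (hltL μ h2)).trans_le (hle ν μ h1)
  have hcofinal : ∀ i < e κ.ord, ∃ ν < κ.ord, i ≤ e ν := by
    intro i hi
    rw [he] at hi
    have : Nonempty (Iio κ.ord) := ⟨⟨0, hκlim.pos⟩⟩
    obtain ⟨ν, hν⟩ := (lt_ciSup_iff Ordinal.bddAbove_of_small).1 hi
    exact ⟨succ ν.1, hκlim.succ_lt ν.2, hν.le.trans (hle _ _ (lt_succ _))⟩
  refine ⟨e κ.ord, ⟨e, ?_, ?_, hcofinal⟩, ?_⟩
  · intro μ ν hμν hν
    exact hstrict μ ν hμν (hμν.le.trans hν.le)
  · intro ν hν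
    exact hstrict ν _ hν hν.le
  · intro i hi
    obtain ⟨ν, hν, hiν⟩ := hcofinal i hi
    refine ⟨h (e ν), (hle (succ ν) ν (lt_succ _)).trans_lt
      (hstrict _ _ (hκlim.succ_lt hν) (hκlim.succ_lt hν).le), ?_⟩
    refine le_antisymm (mk_set_le _) ?_
    rw [← (hh (e ν) (hltL ν hν.le)).2]
    exact mk_le_mk_of_subset (inter_subset_inter_right _ fun x hx => ⟨hiν.trans hx.1, hx.2⟩)

end Pool.Agent.LibGP
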